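import Pool.Agent.Helper53.AE.Cub

/-!
# Arrays of integers and quadratic equations
-/

set_option autoImplicit false

namespace Pool.Agent.Helper53.AE

open Q54.CU CategoryTheory AlgebraicGeometry MvPolynomial
open Pool.Agent.Y116.UV (aff affMap)

section form

variable {κ κ' R S : Type} [Fintype κ] [Fintype κ'] [CommRing R] [CommRing S]

/-- `∑ a_il v_i v_l` -/
def form (a : κ → κ → ℤ) (v : κ → R) : R := ∑ i, ∑ l, (a i l : R) * v i * v l

lemma form_map {F : Type} [FunLike F R S] [RingHomClass F R S] (φ : F) (a : κ → κ → ℤ)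
    (v : κ → R) : φ (form a v) = form a fun i => φ (v i) := by
  unfold form
  simp only [map_sum, map_mul, map_intCast]

lemma form_zero (a : κ → κ → ℤ) : form a (fun _ => (0 : R)) = 0 := by
  unfold form
  simp

/-- the array on a larger set of indices -/
def push [DecidableEq κ'] (φ : κ → κ') (a : κ → κ → ℤ) : κ' → κ' → ℤ :=
  fun u v => ∑ i, ∑ l, if φ i = u ∧ φ l = v then a i l else 0

lemma form_push [DecidableEq κ'] (φ : κ → κ') (a : κ → κ → ℤ) (v : κ' → R) :
    form (push φ a) v = form a fun i => v (φ i) := by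
  unfold form push
  have h1 : ∀ u w : κ', ((∑ i, ∑ l, if φ i = u ∧ φ l = w then a i l else 0 : ℤ) : R) * v u * v w =
      ∑ i, ∑ l, if φ i = u ∧ φ l = w then (a i l : R) * v u * v w else 0 := by
    intro u w
    push_cast
    rw [Finset.sum_mul, Finset.sum_mul]
    refine Finset.sum_congr rfl fun i _ => ?_
    rw [Finset.sum_mul, Finset.sum_mul]
    refine Finset.sum_congr rfl fun l _ => ?_
    split_ifs <;> simp
  simp only [h1]
  have h2 : ∀ i l : κ, ∑ u : κ', ∑ w : κ',
      (if φ i = u ∧ φ l = w then (a i l : R) * v u * v w else 0) =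
      (a i l : R) * v (φ i) * v (φ l) := by
    intro i l
    rw [Finset.sum_eq_single (φ i), Finset.sum_eq_single (φ l)]
    · rw [if_pos ⟨rfl, rfl⟩]
    · intro w _ hw
      exact if_neg fun h => hw h.2.symm
    · intro h
      exact absurd (Finset.mem_univ _) h
    · intro u _ hu
      exact Finset.sum_eq_zero fun w _ => if_neg fun h => hu h.1.symm
    · intro h
      exact absurd (Finset.mem_univ _) h
  calc ∑ u : κ', ∑ w : κ', ∑ i, ∑ l, (if φ i = u ∧ φ l = w then (a i l : R) * v u * v w else 0)
      = ∑ u : κ', ∑ i, ∑ w : κ', ∑ l,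
        (if φ i = u ∧ φ l = w then (a i l : R) * v u * v w else 0) :=
        Finset.sum_congr rfl fun u _ => Finset.sum_comm
    _ = ∑ i, ∑ u : κ', ∑ w : κ', ∑ l,
        (if φ i = u ∧ φ l = w then (a i l : R) * v u * v w else 0) := Finset.sum_comm
    _ = ∑ i, ∑ u : κ', ∑ l, ∑ w : κ',
        (if φ i = u ∧ φ l = w then (a i l : R) * v u * v w else 0) :=
        Finset.sum_congr rfl fun i _ => Finset.sum_congr rfl fun u _ => Finset.sum_comm
    _ = ∑ i, ∑ l, ∑ u : κ', ∑ w : κ',
        (if φ i = u ∧ φ l = w then (a i l : R) * v u * v w else 0) :=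
        Finset.sum_congr rfl fun i _ => Finset.sum_comm
    _ = ∑ i, ∑ l, (a i l : R) * v (φ i) * v (φ l) :=
        Finset.sum_congr rfl fun i _ => Finset.sum_congr rfl fun l _ => h2 i l

omit [Fintype κ'] in
lemma push_apply [DecidableEq κ'] {φ : κ → κ'} (hφ : Function.Injective φ) (a : κ → κ → ℤ)
    (i l : κ) : push φ a (φ i) (φ l) = a i l := by
  unfold push
  rw [Finset.sum_eq_single i, Finset.sum_eq_single l]
  · rw [if_pos ⟨rfl, rfl⟩]
  · intro w _ hw
    exact if_neg fun h => hw (hφ h.2)
  · intro h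
    exact absurd (Finset.mem_univ _) h
  · intro u _ hu
    exact Finset.sum_eq_zero fun w _ => if_neg fun h => hu (hφ h.1)
  · intro h
    exact absurd (Finset.mem_univ _) h

omit [Fintype κ'] in
lemma push_bound [DecidableEq κ'] {φ : κ → κ'} (hφ : Function.Injective φ) {a : κ → κ → ℤ}
    {B : ℤ} (hB : 0 ≤ B) (ha : ∀ i l, |a i l| ≤ B) (u v : κ') : |push φ a u v| ≤ B := by
  by_cases h : ∃ i l, φ i = u ∧ φ l = v
  · obtain ⟨i, l, rfl, rfl⟩ := h
    rw [push_apply hφ]
    exact ha i l
  · have h1 : push φ a u v = 0 := by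
      unfold push
      refine Finset.sum_eq_zero fun i _ => Finset.sum_eq_zero fun l _ => if_neg fun h2 => ?_
      exact h ⟨i, l, h2⟩
    rw [h1, abs_zero]
    exact hB

end form

variable {k : Type} [Field k]

/-- `1` and the coordinates `x_1, …, x_M` -/
noncomputable def co (k : Type) [Field k] {M : ℕ} (o : Option (Fin M)) : MvPolynomial (Fin M) k :=
  o.elim 1 X

/-- The quadratic polynomials `q_j(x) = ∑ a_jil x_i x_l`, with `x_0 = 1`, where `0` stands for
`none`. -/
noncomputable def quad (k : Type) [Field k] {M r : ℕ}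
    (a : Fin (r + 1) → Option (Fin M) → Option (Fin M) → ℤ) (j : Fin (r + 1)) :
    MvPolynomial (Fin M) k := form (a j) (co k)

/-- the array for `z + w = 1` -/
def arr1 : Option Bool → Option Bool → ℤ
  | none, none => -1
  | some _, none => 1
  | _, _ => 0

/-- the array for a product -/
def arr2 : Bool → Bool → ℤ
  | true, false => 1
  | _, _ => 0

lemma form_arr1 {R : Type} [CommRing R] (v : Option Bool → R) :
    form arr1 v = (v (some true) + v (some false) - v none) * v none := by
  unfold form
  simp only [Fintype.sum_option, Fintype.sum_bool, arr1]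
  push_cast
  ring

lemma form_arr2 {R : Type} [CommRing R] (v : Bool → R) :
    form arr2 v = v true * v false := by
  unfold form
  simp only [Fintype.sum_bool, arr2]
  push_cast
  ring

section glue

variable {M M₀ M' r r₀ r' : ℕ} (eI : ((Fin M₀ ⊕ Fin M') ⊕ Bool) ≃ Fin M)
  (eJ : ((Bool ⊕ (Fin M₀ ⊕ Fin M')) ⊕ (Fin (r₀ + 1) ⊕ Fin (r' + 1))) ≃ Fin (r + 1))

/-- the coordinates of the first space -/
def vx (i : Fin M₀) : Fin M := eI (Sum.inl (Sum.inl i))

/-- the coordinates of the second space -/
def vy (i : Fin M') : Fin M := eI (Sum.inl (Sum.inr i))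

/-- the indicator function of the second space -/
def vz : Fin M := eI (Sum.inr true)

/-- the indicator function of the first space -/
def vw : Fin M := eI (Sum.inr false)

/-- `z` and `w` -/
def m0 (o : Option Bool) : Option (Fin M) := o.elim none fun b => some (if b then vz eI else vw eI)

/-- two coordinates -/
def m2 (a b : Fin M) (c : Bool) : Option (Fin M) := some (if c then a else b)

/-- the first space, homogenised with `w` -/
def mx (o : Option (Fin M₀)) : Option (Fin M) := some (o.elim (vw eI) (vx eI))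

/-- the second space, homogenised with `z` -/
def my (o : Option (Fin M')) : Option (Fin M) := some (o.elim (vz eI) (vy eI))

lemma inj_m0 : Function.Injective (m0 eI) := by
  rintro (_ | _ | _) (_ | _ | _) h
  · rfl
  · simp [m0] at h
  · simp [m0] at h
  · simp [m0] at h
  · rfl
  · simp [m0, vz, vw] at h
  · simp [m0] at h
  · simp [m0, vz, vw] at h
  · rfl

lemma inj_m2 {a b : Fin M} (hab : a ≠ b) : Function.Injective (m2 a b) := by
  rintro (_ | _) (_ | _) h
  · rfl
  · exact absurd (by simpa [m2] using h) hab.symm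
  · exact absurd (by simpa [m2] using h) hab
  · rfl

lemma inj_mx : Function.Injective (mx eI) := by
  rintro (_ | i) (_ | l) h
  · rfl
  · simp [mx, vw, vx] at h
  · simp [mx, vw, vx] at h
  · simp [mx, vw, vx] at h
    rw [h]

lemma inj_my : Function.Injective (my eI) := by
  rintro (_ | i) (_ | l) h
  · rfl
  · simp [my, vz, vy] at h
  · simp [my, vz, vy] at h
  · simp [my, vz, vy] at h
    rw [h]

/-- the equations of the disjoint union of `q = 0` and `q' = 0` -/
def glue (a : Fin (r₀ + 1) → Option (Fin M₀) → Option (Fin M₀) → ℤ)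
    (a' : Fin (r' + 1) → Option (Fin M') → Option (Fin M') → ℤ) (t : Fin (r + 1)) :
    Option (Fin M) → Option (Fin M) → ℤ :=
  match eJ.symm t with
  | Sum.inl (Sum.inl true) => push (m0 eI) arr1
  | Sum.inl (Sum.inl false) => push (m2 (vz eI) (vw eI)) arr2
  | Sum.inl (Sum.inr (Sum.inl i)) => push (m2 (vx eI i) (vz eI)) arr2
  | Sum.inl (Sum.inr (Sum.inr i)) => push (m2 (vy eI i) (vw eI)) arr2
  | Sum.inr (Sum.inl j) => push (mx eI) (a j)
  | Sum.inr (Sum.inr j) => push (my eI) (a' j)

variable (a : Fin (r₀ + 1) → Option (Fin M₀) → Option (Fin M₀) → ℤ)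
  (a' : Fin (r' + 1) → Option (Fin M') → Option (Fin M') → ℤ)

lemma glue_1 : quad k (glue eI eJ a a') (eJ (Sum.inl (Sum.inl true))) =
    X (vz eI) + X (vw eI) - 1 := by
  unfold quad glue
  rw [Equiv.symm_apply_apply]
  simp only [form_push, form_arr1]
  simp [m0, co]

lemma glue_2 : quad k (glue eI eJ a a') (eJ (Sum.inl (Sum.inl false))) =
    X (vz eI) * X (vw eI) := by
  unfold quad glue
  rw [Equiv.symm_apply_apply]
  simp only [form_push, form_arr2]
  simp [m2, co]

lemma glue_3 (i : Fin M₀) : quad k (glue eI eJ a a') (eJ (Sum.inl (Sum.inr (Sum.inl i)))) =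
    X (vx eI i) * X (vz eI) := by
  unfold quad glue
  rw [Equiv.symm_apply_apply]
  simp only [form_push, form_arr2]
  simp [m2, co]

lemma glue_4 (i : Fin M') : quad k (glue eI eJ a a') (eJ (Sum.inl (Sum.inr (Sum.inr i)))) =
    X (vy eI i) * X (vw eI) := by
  unfold quad glue
  rw [Equiv.symm_apply_apply]
  simp only [form_push, form_arr2]
  simp [m2, co]

lemma glue_5 (j : Fin (r₀ + 1)) : quad k (glue eI eJ a a') (eJ (Sum.inr (Sum.inl j))) =
    form (a j) (fun o => o.elim (X (vw eI)) fun i => X (vx eI i)) := by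
  unfold quad glue
  rw [Equiv.symm_apply_apply]
  simp only [form_push]
  congr 1
  funext o
  cases o <;> simp [mx, co]

lemma glue_6 (j : Fin (r' + 1)) : quad k (glue eI eJ a a') (eJ (Sum.inr (Sum.inr j))) =
    form (a' j) (fun o => o.elim (X (vz eI)) fun i => X (vy eI i)) := by
  unfold quad glue
  rw [Equiv.symm_apply_apply]
  simp only [form_push]
  congr 1
  funext o
  cases o <;> simp [my, co]

end glue

end Pool.Agent.Helper53.AE
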