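import Pool.Agent.Helper53.AE.Hom

/-!
# Exceptional polynomials with integral coefficients
-/

set_option autoImplicit false

universe v w

namespace Pool.Agent.Helper53.AE

open Q54.CU Q54.TG CategoryTheory Limits MonoidalCategory AlgebraicGeometry Filter
open Pool.Agent.Helper24.SE (Box Exc Saving full)

section count

variable {r : ℕ} {Bad : MvPolynomial (Fin r) ℤ → Prop}

lemma full' (h : ∀ G P, Bad G → Bad (G * (1 + G * P))) (h01 : Bad 0 → Bad 1)
    {G : MvPolynomial (Fin r) ℤ} (hG : Bad G) {ε : ℝ} (hε : 0 < ε) :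
    ∀ᶠ D : ℕ in atTop, ∀ᶠ B : ℕ in atTop,
      ((Box r D B).ncard : ℝ) ^ (1 - ε) < ((Exc Bad D B).ncard : ℝ) := by
  have h' : ∀ G P, Bad G → Bad (1 + G * P) ∨ Bad (G * (1 + G * P)) :=
    fun G P hG => Or.inr (h G P hG)
  by_cases hG0 : G = 0
  · exact full h' (h01 (hG0 ▸ hG)) one_ne_zero hε
  · exact full h' hG hG0 hε

lemma saving_of_none (h : ∀ F, ¬ Bad F) : Saving Bad := by
  refine ⟨1, one_pos, Frequently.of_forall fun D => Frequently.of_forall fun B => ?_⟩
  have h1 : Exc Bad D B = ∅ := by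
    rw [Set.eq_empty_iff_forall_notMem]
    exact fun F hF => h F hF.2
  rw [h1, Set.ncard_empty, Nat.cast_zero]
  exact Real.rpow_nonneg (Nat.cast_nonneg _) _

lemma none_of_saving (h : ∀ G P, Bad G → Bad (G * (1 + G * P))) (h01 : Bad 0 → Bad 1)
    (hs : Saving Bad) (F : MvPolynomial (Fin r) ℤ) : ¬ Bad F := by
  intro hF
  obtain ⟨ε, hε, hs⟩ := hs
  obtain ⟨D, h2, h3⟩ := (hs.and_eventually (full' h h01 hF hε)).exists
  obtain ⟨B, h4, h5⟩ := (h2.and_eventually h3).exists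
  exact absurd h4 (not_le.mpr h5)

end count

lemma exists_int {σ : Type} (F : MvPolynomial σ ℚ) : ∃ (F₀ : MvPolynomial σ ℤ) (N : ℤ),
    N ≠ 0 ∧ MvPolynomial.map (algebraMap ℤ ℚ) F₀ = MvPolynomial.C (N : ℚ) * F := by
  induction F using MvPolynomial.induction_on with
  | C a =>
    refine ⟨MvPolynomial.C a.num, a.den, by exact_mod_cast a.den_ne_zero, ?_⟩
    rw [MvPolynomial.map_C, ← MvPolynomial.C_mul]
    congr 1
    have h := Rat.den_mul_eq_num a
    rw [eq_intCast, ← h]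
    push_cast
    rfl
  | add p q hp hq =>
    obtain ⟨P, M, hM, h1⟩ := hp
    obtain ⟨Q, N, hN, h2⟩ := hq
    refine ⟨MvPolynomial.C N * P + MvPolynomial.C M * Q, M * N, mul_ne_zero hM hN, ?_⟩
    rw [map_add, map_mul, map_mul, MvPolynomial.map_C, MvPolynomial.map_C, h1, h2]
    push_cast
    rw [map_mul, eq_intCast, eq_intCast]
    ring
  | mul_X p i hp =>
    obtain ⟨P, N, hN, h1⟩ := hp
    refine ⟨P * MvPolynomial.X i, N, hN, ?_⟩
    rw [map_mul, MvPolynomial.map_X, h1, mul_assoc]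

/-- The complement `F ≠ 0` in the affine space over `ℚ`. -/
noncomputable def princ {r : ℕ} (F : MvPolynomial (Fin r) ℤ) : SchO ℚ :=
  pri (MvPolynomial.map (algebraMap ℤ ℚ) F)

variable {𝓜 : Type w} [Category.{v} 𝓜] [Abelian 𝓜] [MonoidalCategory 𝓜] [MonoidalPreadditive 𝓜]
  {h : ℤ → SchO ℚ → 𝓜} {L L' : 𝓜}

/-- **Universality of the complements of hypersurfaces with integral coefficients.** -/
theorem exists_princ (hh : IsMotHomology h L) (hs : IsSumDim h) (hL : L ⊗ L' ≅ 𝟙_ 𝓜)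
    {X : SchO ℚ} (hX : IsVar X) (hT : HasAffineTorsor X) : ∃ N : ℕ, ∀ n ≥ N,
      ∃ F : MvPolynomial (Fin n) ℤ,
        tann (insert L (homs h (princ F))) = tann (insert L (homs h X)) := by
  obtain ⟨N, hN⟩ := exists_hyp hh hL hX hT
  refine ⟨N, fun n hn => ?_⟩
  obtain ⟨F, hF⟩ := hN n hn
  obtain ⟨F₀, a, ha, h1⟩ := exists_int F
  refine ⟨F₀, ?_⟩
  unfold princ
  rw [tann_pri hh hs, ← hF]
  have h2 : Ideal.span {MvPolynomial.map (algebraMap ℤ ℚ) F₀} = Ideal.span {F} := by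
    rw [h1]
    have h3 : IsUnit (MvPolynomial.C (a : ℚ) : MvPolynomial (Fin n) ℚ) :=
      (isUnit_iff_ne_zero.mpr (by exact_mod_cast ha)).map MvPolynomial.C
    exact Ideal.span_singleton_mul_left_unit h3 F
  rw [hyp_congr h2]

section

variable (hh : IsMotHomology h L) (hs : IsSumDim h)

include hh hs

lemma tann_princ {r : ℕ} (G H : MvPolynomial (Fin r) ℤ)
    (hGH : Ideal.span {MvPolynomial.map (algebraMap ℤ ℚ) G} ⊔
      Ideal.span {MvPolynomial.map (algebraMap ℤ ℚ) H} = ⊤) (A : 𝓜)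
    (hA : tann (insert L (homs h (princ G))) A) : tann (insert L (homs h (princ (G * H)))) A := by
  unfold princ at hA ⊢
  rw [map_mul]
  refine tann_mul hh hs _ _ ?_ A hA
  have h1 := (Ideal.eq_top_iff_one _).mp hGH
  obtain ⟨x, hx, y, hy, hxy⟩ := Submodule.mem_sup.mp h1
  obtain ⟨u, rfl⟩ := Ideal.mem_span_singleton'.mp hx
  obtain ⟨v, rfl⟩ := Ideal.mem_span_singleton'.mp hy
  exact ⟨u, v, hxy⟩

lemma tann_princ_one {r : ℕ} (G P : MvPolynomial (Fin r) ℤ) (A : 𝓜)
    (hA : tann (insert L (homs h (princ G))) A) :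
    tann (insert L (homs h (princ (G * (1 + G * P))))) A := by
  refine tann_princ hh hs _ _ ?_ A hA
  rw [map_add, map_mul, map_one, Ideal.eq_top_iff_one]
  set g := MvPolynomial.map (algebraMap ℤ ℚ) G
  set p := MvPolynomial.map (algebraMap ℤ ℚ) P
  have h2 : (1 : MvPolynomial (Fin r) ℚ) = g * (-p) + (1 + g * p) := by ring
  have h3 : g * (-p) + (1 + g * p) ∈ Ideal.span {g} ⊔ Ideal.span {1 + g * p} :=
    Submodule.add_mem_sup (Ideal.mul_mem_right _ _ (Ideal.mem_span_singleton_self _))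
      (Ideal.mem_span_singleton_self _)
  rwa [← h2] at h3

lemma tann_princ_zero {r : ℕ} (T : Set 𝓜) (A : 𝓜)
    (hA : tann (insert L (homs h (princ (0 : MvPolynomial (Fin r) ℤ)))) A) :
    tann (insert L T) A := by
  unfold princ at hA
  rw [map_zero] at hA
  exact tann_zero hh hs T A hA

end

end Pool.Agent.Helper53.AE
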