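import Pool.Agent.Helper53.AE.Glue
import Pool.Agent.Helper53.AE.Box

/-!
# Counting arrays
-/

set_option autoImplicit false

universe v w

namespace Pool.Agent.Helper53.AE

open Q54.CU Q54.TG CategoryTheory Limits MonoidalCategory AlgebraicGeometry Filter

/-- integral arrays of size `(r + 1) × (M + 1) × (M + 1)` -/
abbrev Arr (M r : ℕ) : Type := Fin (r + 1) → Option (Fin M) → Option (Fin M) → ℤ

/-- The arrays for which `Bad`, with entries of absolute value at most `B`. -/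
def Exc3 (Bad : ∀ M r : ℕ, Arr M r → Prop) (M r B : ℕ) : Set (Arr M r) :=
  {a | (∀ j u v, |a j u v| ≤ B) ∧ Bad M r a}

section count

/-- all arrays with bounded entries -/
noncomputable def box3 (M r B : ℕ) : Finset (Arr M r) :=
  Fintype.piFinset fun _ => Fintype.piFinset fun _ => Fintype.piFinset fun _ =>
    Finset.Icc (-(B : ℤ)) B

lemma mem_box3 {M r B : ℕ} {a : Arr M r} : a ∈ box3 M r B ↔ ∀ j u v, |a j u v| ≤ B := by
  unfold box3
  simp only [Fintype.mem_piFinset, Finset.mem_Icc, abs_le]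

lemma card_box3 (M r B : ℕ) : (box3 M r B).card = (2 * B + 1) ^ ((r + 1) * (M + 1) ^ 2) := by
  unfold box3
  rw [Fintype.card_piFinset, Finset.prod_const, Fintype.card_piFinset, Finset.prod_const,
    Fintype.card_piFinset, Finset.prod_const, Finset.card_univ, Finset.card_univ, Int.card_Icc,
    Fintype.card_option, Fintype.card_fin, Fintype.card_fin, ← pow_mul, ← pow_mul]
  have h1 : ((B : ℤ) + 1 - -(B : ℤ)).toNat = 2 * B + 1 := by omega
  rw [h1]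
  congr 1
  ring

lemma finite_exc3 (Bad : ∀ M r : ℕ, Arr M r → Prop) (M r B : ℕ) : (Exc3 Bad M r B).Finite :=
  (box3 M r B).finite_toSet.subset fun _ ha => mem_box3.mpr ha.1

variable {M M₀ M' r r₀ r' : ℕ} (eI : ((Fin M₀ ⊕ Fin M') ⊕ Bool) ≃ Fin M)
  (eJ : ((Bool ⊕ (Fin M₀ ⊕ Fin M')) ⊕ (Fin (r₀ + 1) ⊕ Fin (r' + 1))) ≃ Fin (r + 1))

lemma glue_inj (a : Arr M₀ r₀) : Function.Injective (glue eI eJ a : Arr M' r' → Arr M r) := by
  intro b c h
  funext j u v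
  have h1 := congrFun (congrFun (congrFun h (eJ (Sum.inr (Sum.inr j)))) (my eI u)) (my eI v)
  unfold glue at h1
  rw [Equiv.symm_apply_apply] at h1
  simp only [push_apply (inj_my eI)] at h1
  exact h1

lemma arr1_bound (i l : Option Bool) : |arr1 i l| ≤ 1 := by
  rcases i with _ | _ | _ <;> rcases l with _ | _ | _ <;> simp [arr1]

lemma arr2_bound (i l : Bool) : |arr2 i l| ≤ 1 := by
  rcases i with _ | _ <;> rcases l with _ | _ <;> simp [arr2]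

lemma glue_bound {B : ℕ} (hB : 1 ≤ B) {a : Arr M₀ r₀} (ha : ∀ j u v, |a j u v| ≤ B)
    {a' : Arr M' r'} (ha' : ∀ j u v, |a' j u v| ≤ B) (t : Fin (r + 1)) (u v : Option (Fin M)) :
    |glue eI eJ a a' t u v| ≤ B := by
  have hB0 : (0 : ℤ) ≤ B := by positivity
  have hB1 : (1 : ℤ) ≤ B := by exact_mod_cast hB
  obtain ⟨s, rfl⟩ := eJ.surjective t
  unfold glue
  rw [Equiv.symm_apply_apply]
  rcases s with ((_ | _) | (i | i)) | (j | j)
  · refine push_bound (inj_m2 ?_) hB0 (fun i l => (arr2_bound i l).trans hB1) u v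
    simp [vz, vw]
  · exact push_bound (inj_m0 eI) hB0 (fun i l => (arr1_bound i l).trans hB1) u v
  · refine push_bound (inj_m2 ?_) hB0 (fun i l => (arr2_bound i l).trans hB1) u v
    simp [vz, vx]
  · refine push_bound (inj_m2 ?_) hB0 (fun i l => (arr2_bound i l).trans hB1) u v
    simp [vy, vw]
  · exact push_bound (inj_mx eI) hB0 (ha j) u v
  · exact push_bound (inj_my eI) hB0 (ha' j) u v

/-- there are such equivalences -/
lemma exists_equiv {M M₀ r r₀ : ℕ} (hM : M₀ + 2 ≤ M) (hr : M + r₀ + 1 ≤ r) :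
    ∃ (M' r' : ℕ), M' + 1 = M - M₀ - 1 ∧ r' + 1 = r - M - r₀ ∧
      Nonempty (((Fin M₀ ⊕ Fin M') ⊕ Bool) ≃ Fin M) ∧
      Nonempty (((Bool ⊕ (Fin M₀ ⊕ Fin M')) ⊕ (Fin (r₀ + 1) ⊕ Fin (r' + 1))) ≃ Fin (r + 1)) := by
  refine ⟨M - M₀ - 2, r - M - r₀ - 1, by omega, by omega, ?_, ?_⟩
  · refine ⟨Fintype.equivOfCardEq ?_⟩
    simp only [Fintype.card_sum, Fintype.card_fin, Fintype.card_bool]
    omega
  · refine ⟨Fintype.equivOfCardEq ?_⟩
    simp only [Fintype.card_sum, Fintype.card_fin, Fintype.card_bool]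
    omega

lemma exponents {ε : ℝ} (hε : 0 < ε) (M₀ r₀ : ℕ) : ∃ C : ℕ, M₀ + 2 ≤ C ∧ r₀ + 2 ≤ C ∧
    ∀ M r : ℕ, C ≤ M → C * M ≤ r →
      (1 - ε) * (((r + 1) * (M + 1) ^ 2 : ℕ) : ℝ) <
        (((r - M - r₀) * (M - M₀ - 1) ^ 2 : ℕ) : ℝ) := by
  obtain ⟨K, hK⟩ := exists_nat_gt (((r₀ : ℝ) + 2 + 2 * (M₀ + 2)) / ε)
  refine ⟨K + M₀ + 2 + r₀ + 2, by omega, by omega, fun M r hM hr => ?_⟩
  set C := K + M₀ + 2 + r₀ + 2 with hC
  have hr1 : M + r₀ + 1 ≤ r := by nlinarith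
  have hC0 : (0 : ℝ) < C := by
    rw [hC]
    positivity
  have hKC : (K : ℝ) ≤ C := by
    rw [hC]
    push_cast
    have := (Nat.cast_nonneg M₀ : (0 : ℝ) ≤ M₀)
    have := (Nat.cast_nonneg r₀ : (0 : ℝ) ≤ r₀)
    linarith
  have e1 : (((r - M - r₀) * (M - M₀ - 1) ^ 2 : ℕ) : ℝ) =
      ((r : ℝ) - M - r₀) * ((M : ℝ) - M₀ - 1) ^ 2 := by
    rw [Nat.cast_mul, Nat.cast_pow, Nat.cast_sub (by omega), Nat.cast_sub (by omega),
      Nat.cast_sub (by omega), Nat.cast_sub (by omega), Nat.cast_one]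
  rw [e1]
  push_cast
  have hMC : (C : ℝ) ≤ M := by exact_mod_cast hM
  have hrC : (C : ℝ) * M ≤ r := by exact_mod_cast hr
  have hM0 : (0 : ℝ) < M := hC0.trans_le hMC
  have hR : (0 : ℝ) < (r : ℝ) + 1 := by positivity
  have hMM : (0 : ℝ) < (M : ℝ) + 1 := by positivity
  have m0 : (0 : ℝ) ≤ M₀ := Nat.cast_nonneg _
  have r0 : (0 : ℝ) ≤ r₀ := Nat.cast_nonneg _
  have hC1 : (1 : ℝ) ≤ C := by
    rw [hC]
    push_cast
    have := (Nat.cast_nonneg K : (0 : ℝ) ≤ K)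
    linarith
  -- `x = (M + r₀ + 1) / (r + 1)` and `y = (M₀ + 2) / (M + 1)`
  set x : ℝ := (M + r₀ + 1) / (r + 1) with hx
  set y : ℝ := (M₀ + 2) / (M + 1) with hy
  have hx0 : 0 ≤ x := by positivity
  have hy0 : 0 ≤ y := by positivity
  have hxC : x ≤ (r₀ + 2) / C := by
    rw [hx, div_le_div_iff₀ hR hC0]
    have h1 : (C : ℝ) * (r₀ + 1) ≤ M * (r₀ + 1) := mul_le_mul_of_nonneg_right hMC (by positivity)
    have h2 : (1 : ℝ) * (M * (r₀ + 1)) ≤ C * (M * (r₀ + 1)) :=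
      mul_le_mul_of_nonneg_right hC1 (by positivity)
    nlinarith
  have hyC : y ≤ (M₀ + 2) / C := by
    rw [hy]
    exact div_le_div_of_nonneg_left (by positivity) hC0 (by linarith)
  have hsum : x + 2 * y < ε := by
    have h1 : x + 2 * y ≤ ((r₀ : ℝ) + 2 + 2 * (M₀ + 2)) / C := by
      have : ((r₀ : ℝ) + 2 + 2 * (M₀ + 2)) / C = (r₀ + 2) / C + 2 * ((M₀ + 2) / C) := by
        field_simp
      rw [this]
      linarith
    refine h1.trans_lt ?_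
    rw [div_lt_iff₀ hC0]
    have h2 := (div_lt_iff₀ hε).mp hK
    nlinarith
  have hx1 : x ≤ 1 := by
    rw [hx, div_le_one hR]
    have : ((M + r₀ + 1 : ℕ) : ℝ) ≤ r := by exact_mod_cast hr1
    push_cast at this
    linarith
  have hy1 : y ≤ 1 := by
    rw [hy, div_le_one hMM]
    have : ((M₀ + 2 : ℕ) : ℝ) ≤ M := by exact_mod_cast (by omega : M₀ + 2 ≤ M)
    push_cast at this
    linarith
  have f1 : (r : ℝ) - M - r₀ = (r + 1) * (1 - x) := by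
    rw [hx]
    field_simp
    ring
  have f2 : (M : ℝ) - M₀ - 1 = (M + 1) * (1 - y) := by
    rw [hy]
    field_simp
    ring
  rw [f1, f2]
  have h3 : 1 - ε < (1 - x) * (1 - y) ^ 2 := by
    have h4 : 0 ≤ x * y * (2 - y) := by
      have : 0 ≤ 2 - y := by linarith
      positivity
    nlinarith [sq_nonneg y]
  have h5 : (0 : ℝ) < (r + 1) * (M + 1) ^ 2 := by positivity
  calc (1 - ε) * (((r : ℝ) + 1) * (M + 1) ^ 2)
      < ((1 - x) * (1 - y) ^ 2) * (((r : ℝ) + 1) * (M + 1) ^ 2) :=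
        mul_lt_mul_of_pos_right h3 h5
    _ = (r + 1) * (1 - x) * ((M + 1) * (1 - y)) ^ 2 := by ring

/-- **One exception gives many exceptions.** -/
theorem many3 {Bad : ∀ M r : ℕ, Arr M r → Prop}
    (hglue : ∀ {M M₀ M' r r₀ r' : ℕ} (eI : ((Fin M₀ ⊕ Fin M') ⊕ Bool) ≃ Fin M)
      (eJ : ((Bool ⊕ (Fin M₀ ⊕ Fin M')) ⊕ (Fin (r₀ + 1) ⊕ Fin (r' + 1))) ≃ Fin (r + 1))
      (a : Arr M₀ r₀) (a' : Arr M' r'), Bad M₀ r₀ a → Bad M r (glue eI eJ a a'))
    {M₀ r₀ : ℕ} {a : Arr M₀ r₀} (ha : Bad M₀ r₀ a) {ε : ℝ} (hε : 0 < ε) :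
    ∃ C : ℕ, ∀ B M r : ℕ, C ≤ B → C ≤ M → C * M ≤ r →
      (((2 * B + 1 : ℕ) : ℝ) ^ ((r + 1) * (M + 1) ^ 2)) ^ (1 - ε) <
        ((Exc3 Bad M r B).ncard : ℝ) := by
  obtain ⟨B₀, hB₀⟩ : ∃ B₀ : ℕ, ∀ j u v, |a j u v| ≤ B₀ := by
    refine ⟨∑ j, ∑ u, ∑ v, (a j u v).natAbs, fun j u v => ?_⟩
    have h1 : (a j u v).natAbs ≤ ∑ j, ∑ u, ∑ v, (a j u v).natAbs := by
      refine le_trans ?_ (Finset.single_le_sum (f := fun j => ∑ u, ∑ v, (a j u v).natAbs)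
        (fun _ _ => Nat.zero_le _) (Finset.mem_univ j))
      refine le_trans ?_ (Finset.single_le_sum (f := fun u => ∑ v, (a j u v).natAbs)
        (fun _ _ => Nat.zero_le _) (Finset.mem_univ u))
      exact Finset.single_le_sum (f := fun v => (a j u v).natAbs)
        (fun _ _ => Nat.zero_le _) (Finset.mem_univ v)
    rw [Int.abs_eq_natAbs]
    exact_mod_cast h1
  obtain ⟨C, hC1, hC2, hC⟩ := exponents hε M₀ r₀
  refine ⟨C + B₀ + 1, fun B M r hB hM hr => ?_⟩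
  have hM' : C ≤ M := by omega
  have hr' : C * M ≤ r := le_trans (Nat.mul_le_mul_right M (by omega)) hr
  have h1 := hC M r hM' hr'
  obtain ⟨M', r', eM, er, ⟨eI⟩, ⟨eJ⟩⟩ := exists_equiv (M := M) (M₀ := M₀) (r := r) (r₀ := r₀)
    (by omega) (by nlinarith)
  have hB' : ∀ j u v, |a j u v| ≤ (B : ℤ) := fun j u v => (hB₀ j u v).trans (by
    exact_mod_cast (by omega : B₀ ≤ B))
  have h2 : (2 * B + 1) ^ ((r' + 1) * (M' + 1) ^ 2) ≤ (Exc3 Bad M r B).ncard := by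
    rw [← card_box3, ← Set.ncard_coe_finset]
    refine Set.ncard_le_ncard_of_injOn (glue eI eJ a) (fun b hb => ?_)
      (glue_inj eI eJ a).injOn (finite_exc3 Bad M r B)
    exact ⟨glue_bound eI eJ (by omega) hB' (mem_box3.mp (Finset.mem_coe.mp hb)),
      hglue eI eJ a b ha⟩
  have h3 : (((2 * B + 1) ^ ((r' + 1) * (M' + 1) ^ 2) : ℕ) : ℝ) ≤ ((Exc3 Bad M r B).ncard : ℝ) := by
    exact_mod_cast h2
  refine lt_of_lt_of_le ?_ h3
  rw [eM, er]
  have hb : (1 : ℝ) < ((2 * B + 1 : ℕ) : ℝ) := by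
    exact_mod_cast (by omega : 1 < 2 * B + 1)
  have hb0 : (0 : ℝ) ≤ ((2 * B + 1 : ℕ) : ℝ) := by positivity
  rw [Nat.cast_pow, ← Real.rpow_natCast, ← Real.rpow_natCast, ← Real.rpow_mul hb0]
  refine Real.rpow_lt_rpow_of_exponent_lt hb ?_
  rw [mul_comm]
  exact h1

end count

end Pool.Agent.Helper53.AE
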