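import Pool.Agent.Helper53.AE.Hom

/-!
# Cubic hypersurfaces and the zero sets of their coefficients
-/

set_option autoImplicit false

universe v w

namespace Pool.Agent.Helper53.AE

open Q54.CU Q54.TG CategoryTheory Limits MonoidalCategory AlgebraicGeometry
open Pool.Agent.Y116.UV (aff affMap affIso closed_affMap range_affMap)
open Pool.Agent.Helper67.AE (hypO_eq isVar_aff affO_eq)

variable {k : Type} [Field k]

/-- a decomposition into two open and closed subschemes, given by an idempotent -/
lemma decomp_idem {A B C : Type} [CommRing A] [CommRing B] [CommRing C] [Algebra k A]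
    [Algebra k B] [Algebra k C] (f : A →ₐ[k] B) (g : A →ₐ[k] C) (hf : Function.Surjective f)
    (hg : Function.Surjective g) (e : A) (he : e * e = e)
    (kerf : RingHom.ker (f : A →+* B) = Ideal.span {e})
    (kerg : RingHom.ker (g : A →+* C) = Ideal.span {1 - e}) :
    IsDecomp (X := (aff k A : SchO k)) (affMap f) (affMap g) ∧
      IsDecomp (X := (aff k A : SchO k)) (affMap g) (affMap f) := by
  have key : ∀ (B : Type) [CommRing B] [Algebra k B] (φ : A →ₐ[k] B)
      (e : A), Function.Surjective φ → e * e = e →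
      RingHom.ker (φ : A →+* B) = Ideal.span {1 - e} →
      IsOpenImmersion (affMap φ).left := by
    intro B _ _ φ e hφ he hk
    let : Algebra A B := (φ : A →+* B).toAlgebra
    have h1 : IsLocalization.Away e B :=
      IsLocalization.away_of_isIdempotentElem (R := A) (S := B) he hk hφ
    exact IsOpenImmersion.of_isLocalization (R := A) (S := B) e
  have of : IsOpenImmersion (affMap f).left :=
    key _ f (1 - e) hf (by linear_combination he) (by rw [kerf, sub_sub_cancel])
  have og : IsOpenImmersion (affMap g).left := key _ g e hg he kerg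
  have rf : Set.range (affMap f).left = {x : PrimeSpectrum A | e ∈ x.asIdeal} := by
    rw [range_affMap _ hf]
    ext x
    constructor
    · intro hx
      have h3 : e ∈ RingHom.ker (f : A →+* B) := by
        rw [kerf]
        exact Ideal.mem_span_singleton_self _
      exact hx _ h3
    · intro hx a ha
      have h3 : a ∈ RingHom.ker (f : A →+* B) := ha
      rw [kerf] at h3
      exact (Ideal.span_singleton_le_iff_mem _).mpr hx h3
  have rg : Set.range (affMap g).left = {x : PrimeSpectrum A | 1 - e ∈ x.asIdeal} := by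
    rw [range_affMap _ hg]
    ext x
    constructor
    · intro hx
      have h3 : 1 - e ∈ RingHom.ker (g : A →+* C) := by
        rw [kerg]
        exact Ideal.mem_span_singleton_self _
      exact hx _ h3
    · intro hx a ha
      have h3 : a ∈ RingHom.ker (g : A →+* C) := ha
      rw [kerg] at h3
      exact (Ideal.span_singleton_le_iff_mem _).mpr hx h3
  have hc : Set.range (affMap g).left = (Set.range (affMap f).left)ᶜ := by
    rw [rf, rg]
    ext x
    constructor
    · intro h1 h2
      refine x.2.ne_top ((Ideal.eq_top_iff_one _).mpr ?_)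
      have h3 : e + (1 - e) ∈ x.asIdeal := Ideal.add_mem _ h2 h1
      rwa [add_sub_cancel] at h3
    · intro h1
      have h2 : e * (1 - e) ∈ x.asIdeal := by
        have h3 : e * (1 - e) = 0 := by linear_combination -he
        rw [h3]
        exact Ideal.zero_mem _
      exact (x.2.mem_or_mem h2).resolve_left h1
  exact ⟨⟨closed_affMap _ hf, og, hc⟩, ⟨closed_affMap _ hg, of, by rw [hc, compl_compl]⟩⟩

/-- The common zero scheme of the `q_j` in the affine space. -/
noncomputable def zer {M r : ℕ} (q : Fin (r + 1) → MvPolynomial (Fin M) k) : SchO k :=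
  aff k (MvPolynomial (Fin M) k ⧸ Ideal.span (Set.range q))

lemma isVar_zer {M r : ℕ} (q : Fin (r + 1) → MvPolynomial (Fin M) k) : IsVar (zer q) :=
  isVar_aff _

lemma decomp_zer {M r : ℕ} (q : Fin (r + 1) → MvPolynomial (Fin M) k) :
    ∃ i : zer q ⟶ affO k M, IsDecomp i (cplInc q) := by
  have hs := Ideal.Quotient.mkₐ_surjective k (Ideal.span (Set.range q))
  have h1 : Set.range (cplInc q).left = {x : Aff k M | ∃ j, q j ∉ x.asIdeal} := by
    change Set.range (Q54.CU.compl q).ι = _
    rw [Scheme.Opens.range_ι]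
    ext x
    exact mem_compl q
  have h2 : Set.range (affMap (Ideal.Quotient.mkₐ k (Ideal.span (Set.range q)))).left =
      {x : PrimeSpectrum (MvPolynomial (Fin M) k) | ∀ j, q j ∈ x.asIdeal} := by
    rw [range_affMap _ hs]
    ext x
    constructor
    · intro hx j
      exact hx _ (Ideal.Quotient.eq_zero_iff_mem.mpr (Ideal.subset_span ⟨j, rfl⟩))
    · intro hx a ha
      have h3 : a ∈ Ideal.span (Set.range q) := Ideal.Quotient.eq_zero_iff_mem.mp ha
      have h4 : Ideal.span (Set.range q) ≤ x.asIdeal := by
        rw [Ideal.span_le]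
        rintro _ ⟨j, rfl⟩
        exact hx j
      exact h4 h3
  refine ⟨affMap (Ideal.Quotient.mkₐ k (Ideal.span (Set.range q))),
    closed_affMap _ hs, inferInstance, ?_⟩
  refine h1.trans ?_
  have h3 : {x : PrimeSpectrum (MvPolynomial (Fin M) k) | ∃ j, q j ∉ x.asIdeal} =
      {x : PrimeSpectrum (MvPolynomial (Fin M) k) | ∀ j, q j ∈ x.asIdeal}ᶜ := by
    ext x
    exact not_forall.symm
  exact h3.trans (congrArg (fun s : Set (PrimeSpectrum (MvPolynomial (Fin M) k)) => sᶜ) h2.symm)

variable {𝓜 : Type w} [Category.{v} 𝓜] [Abelian 𝓜] [MonoidalCategory 𝓜]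
  [MonoidalPreadditive 𝓜] {h : ℤ → SchO k → 𝓜} {L : 𝓜}

section basic

variable (hh : IsMotHomology h L) (hs : IsSumDim h)

include hh hs

lemma zer_above {M r : ℕ} {q : Fin (r + 1) → MvPolynomial (Fin M) k} (hq : ∃ j, q j ≠ 0) {n : ℤ}
    (hn : 2 * M - 1 ≤ n) : IsZero (h n (zer q)) := by
  obtain ⟨j, hj⟩ := hq
  have hmem : q j ∈ Ideal.span (Set.range q) := Ideal.subset_span ⟨j, rfl⟩
  obtain _ | d := M
  · have h1 : Subsingleton (MvPolynomial (Fin 0) k ⧸ Ideal.span (Set.range q)) := by
      rw [Ideal.Quotient.subsingleton_iff]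
      refine Ideal.eq_top_of_isUnit_mem _ hmem ?_
      obtain ⟨c, hc⟩ := MvPolynomial.C_surjective (Fin 0) (q j)
      rw [← hc] at hj ⊢
      exact (isUnit_iff_ne_zero.mpr (fun h => hj (by rw [h, map_zero]))).map MvPolynomial.C
    exact zero_empty hh hs n
  · refine hs.dim _ d (isVar_zer q) ?_ n (by push_cast at hn ⊢; omega)
    unfold zer
    refine (Pool.Agent.Z125.UN.topDim_aff _).le.trans
      (Pool.Agent.Z125.UN.dim_quot _ ?_)
    intro hb
    rw [hb] at hmem
    exact hj hmem

/-- **The hypersurface `∑ λ_j q_j(x) = 1` and the common zero scheme of the `q_j`.** -/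
theorem tann_cub {L' : 𝓜} (hL : L ⊗ L' ≅ 𝟙_ 𝓜) {M r : ℕ}
    (q : Fin (r + 1) → MvPolynomial (Fin M) k) :
    tann (insert L (homs h (hypO q (1 : k)))) = tann (insert L (homs h (zer q))) := by
  by_cases hq : ∃ j, q j ≠ 0
  · obtain ⟨i, hi⟩ := decomp_zer q
    have hid : IsAffineBundle 0 (𝟙 (zer q) : zer q ⟶ zer q).left := by
      have : IsIso (𝟙 (zer q) : zer q ⟶ zer q).left := by
        rw [Over.id_left]
        infer_instance
      exact bundle_iso _
    exact tann_eq' hh hL (s := 0) ⟨zer q, 𝟙 _, i, isVar_zer q, isVar_zer q, hid, hi,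
      zer_above hh hs hq (by omega), zer_above hh hs hq (by omega)⟩
  · push Not at hq
    refine tann_ext fun C hC hL => ?_
    have h1 : ∀ n, C (h n (hypO q (1 : k))) := by
      intro n
      have h2 : Subsingleton (HypRing q (1 : k)) := by
        rw [Ideal.Quotient.subsingleton_iff, Ideal.span_singleton_eq_top]
        have h3 : hypPoly q (1 : k) = -1 := by
          unfold hypPoly
          simp [hq]
        rw [h3]
        exact isUnit_one.neg
      rw [hypO_eq]
      exact hC.zero (zero_empty hh hs n)
    have h2 : ∀ n, C (h n (zer q)) := by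
      intro n
      have h3 : Ideal.span (Set.range q) = ⊥ := by
        rw [Ideal.span_eq_bot]
        rintro _ ⟨j, rfl⟩
        exact hq j
      obtain ⟨e⟩ := iso_h hh (isVar_zer q) isVar_affO
        (affIso (((Ideal.quotientEquivAlgOfEq k h3).trans
          (AlgEquiv.quotientBot k (MvPolynomial (Fin M) k))).symm)) n
      exact hC.iso ⟨e.symm⟩ (aff_all hh hC hL M n)
    constructor
    · rintro - _ ⟨n, rfl⟩
      exact h2 n
    · rintro - _ ⟨n, rfl⟩
      exact h1 n

end basic

end Pool.Agent.Helper53.AE
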