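import Pool.Agent.Helper67.AE.Hom
import Pool.Graph.R_seed8.Z125.UN.Dim2
import Pool.Graph.R_seed8.Z125.UN.Emb

/-!
# Hypersurfaces and principal open subschemes of affine spaces, as schemes over `k`
-/

set_option autoImplicit false

open CategoryTheory Limits AlgebraicGeometry
open Pool.Agent.Y116.UV (aff affIso affMap affMap_comp closed_affMap range_affMap ft_aff
  triple_away)
open Q54.CU (SchO IsVar IsFT IsDecomp IsAffineBundle affO HypRing hypPoly hypO affStr_bundle
  cplInc cplO compl mem_compl)
open Pool.Agent.Helper67.AE (isVar_aff hypO_eq affO_eq)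

namespace Pool.Agent.Helper53.AE

/-- An isomorphism is an affine bundle of rank zero. -/
lemma bundle_iso {E B : Scheme.{0}} (p : E ⟶ B) [IsIso p] : IsAffineBundle 0 p := by
  intro b
  let 𝒰 := B.affineOpenCover
  obtain ⟨i, hi⟩ := 𝒰.openCover.exists_eq b
  have h1 : IsIso (Spec.map (CommRingCat.ofHom
      (MvPolynomial.C : 𝒰.X i →+* MvPolynomial (Fin 0) (𝒰.X i)))) := by
    have h2 : IsIso (CommRingCat.ofHom
        (MvPolynomial.C : 𝒰.X i →+* MvPolynomial (Fin 0) (𝒰.X i))) := by
      rw [ConcreteCategory.isIso_iff_bijective]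
      exact ⟨MvPolynomial.C_injective _ _, MvPolynomial.C_surjective _⟩
    infer_instance
  refine ⟨𝒰.X i, 𝒰.f i, Spec.map (CommRingCat.ofHom MvPolynomial.C) ≫ 𝒰.f i ≫ inv p,
    𝒰.map_prop i, hi, ?_⟩
  exact IsPullback.of_vert_isIso ⟨by simp⟩

variable {k : Type} [Field k]

/-- The hypersurface `F = 0` in the affine space. -/
noncomputable def hyp {r : ℕ} (F : MvPolynomial (Fin r) k) : SchO k :=
  aff k (MvPolynomial (Fin r) k ⧸ Ideal.span {F})

/-- The principal open subscheme `F ≠ 0` of the affine space. -/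
noncomputable def pri {r : ℕ} (F : MvPolynomial (Fin r) k) : SchO k :=
  aff k (Localization.Away F)

lemma isVar_hyp {r : ℕ} (F : MvPolynomial (Fin r) k) : IsVar (hyp F) := isVar_aff _

instance {A : Type} [CommRing A] [Algebra k A] [Algebra.FiniteType k A] (F : A) :
    Algebra.FiniteType k (Localization.Away F) :=
  Algebra.FiniteType.trans (S := A) inferInstance inferInstance

lemma isVar_pri {r : ℕ} (F : MvPolynomial (Fin r) k) : IsVar (pri F) := isVar_aff _

lemma isAffine_pri {r : ℕ} (F : MvPolynomial (Fin r) k) : IsAffine (pri F).left :=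
  (inferInstance : IsAffine (Spec (CommRingCat.of (Localization.Away F))))

lemma hyp_congr {r : ℕ} {F G : MvPolynomial (Fin r) k} (h : Ideal.span {F} = Ideal.span {G}) :
    hyp F = hyp G := by
  unfold hyp
  rw [h]

/-- the hypersurface and its complement -/
lemma decomp {r : ℕ} (F : MvPolynomial (Fin r) k) : ∃ (i : hyp F ⟶ affO k r)
    (j : pri F ⟶ affO k r), IsDecomp i j := by
  have ht := triple_away (R := k) F
  refine ⟨affMap (Ideal.Quotient.mkₐ k (Ideal.span {F})),
    affMap (IsScalarTower.toAlgHom k (MvPolynomial (Fin r) k) (Localization.Away F)),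
    ht.closed, ht.opened, eq_compl_comm.mp ht.compl⟩

/-- a decomposition into two open and closed subschemes -/
lemma decomp_mul {A : Type} [CommRing A] [Algebra k A] (G H : A)
    (h : ∃ u v : A, u * G + v * H = 1) :
    ∃ (i : (aff k (A ⧸ Ideal.span {G}) : SchO k) ⟶ aff k (A ⧸ Ideal.span {G * H}))
    (j : (aff k (A ⧸ Ideal.span {H}) : SchO k) ⟶ aff k (A ⧸ Ideal.span {G * H})),
      IsDecomp i j ∧ IsDecomp j i := by
  obtain ⟨u, v, h⟩ := h
  have hG : Ideal.span {G * H} ≤ Ideal.span {G} := by
    rw [Ideal.span_singleton_le_span_singleton]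
    exact Dvd.intro H rfl
  have hH : Ideal.span {G * H} ≤ Ideal.span {H} := by
    rw [Ideal.span_singleton_le_span_singleton]
    exact Dvd.intro_left G rfl
  let f : (A ⧸ Ideal.span {G * H}) →ₐ[k] A ⧸ Ideal.span {G} := Ideal.Quotient.factorₐ k hG
  let g : (A ⧸ Ideal.span {G * H}) →ₐ[k] A ⧸ Ideal.span {H} := Ideal.Quotient.factorₐ k hH
  have hf : Function.Surjective f := Ideal.Quotient.factor_surjective hG
  have hg : Function.Surjective g := Ideal.Quotient.factor_surjective hH
  have key : ∀ (B : Type) [CommRing B] [Algebra k B] (φ : (A ⧸ Ideal.span {G * H}) →ₐ[k] B)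
      (e : A ⧸ Ideal.span {G * H}), Function.Surjective φ → e * e = e →
      RingHom.ker (φ : (A ⧸ Ideal.span {G * H}) →+* B) = Ideal.span {1 - e} →
      IsOpenImmersion (affMap φ).left := by
    intro B _ _ φ e hφ he hk
    let : Algebra (A ⧸ Ideal.span {G * H}) B := (φ : (A ⧸ Ideal.span {G * H}) →+* B).toAlgebra
    have h1 : IsLocalization.Away e B :=
      IsLocalization.away_of_isIdempotentElem (R := A ⧸ Ideal.span {G * H}) (S := B) he hk hφ
    exact IsOpenImmersion.of_isLocalization (R := A ⧸ Ideal.span {G * H}) (S := B) e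
  have h0 : Ideal.Quotient.mk (Ideal.span {G * H}) (G * H) = 0 :=
    Ideal.Quotient.eq_zero_iff_mem.mpr (Ideal.mem_span_singleton_self _)
  have h0' : Ideal.Quotient.mk (Ideal.span {G * H}) G * Ideal.Quotient.mk (Ideal.span {G * H}) H =
      0 := by rw [← map_mul, h0]
  have h1' : Ideal.Quotient.mk (Ideal.span {G * H}) u * Ideal.Quotient.mk (Ideal.span {G * H}) G +
      Ideal.Quotient.mk (Ideal.span {G * H}) v * Ideal.Quotient.mk (Ideal.span {G * H}) H = 1 := by
    rw [← map_mul, ← map_mul, ← map_add, h, map_one]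
  have kf : ∀ a : A, f (Ideal.Quotient.mk _ a) = Ideal.Quotient.mk _ a := fun a => rfl
  have kg : ∀ a : A, g (Ideal.Quotient.mk _ a) = Ideal.Quotient.mk _ a := fun a => rfl
  have kerf : RingHom.ker (f : (A ⧸ Ideal.span {G * H}) →+* (A ⧸ Ideal.span {G})) =
      Ideal.span {Ideal.Quotient.mk _ G} := by
    ext x
    obtain ⟨a, rfl⟩ := Ideal.Quotient.mk_surjective x
    rw [RingHom.mem_ker]
    change f (Ideal.Quotient.mk _ a) = 0 ↔ _
    rw [kf, Ideal.Quotient.eq_zero_iff_mem, Ideal.mem_span_singleton, Ideal.mem_span_singleton]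
    constructor
    · rintro ⟨b, rfl⟩
      exact ⟨Ideal.Quotient.mk _ b, map_mul _ _ _⟩
    · rintro ⟨y, hy⟩
      obtain ⟨b, rfl⟩ := Ideal.Quotient.mk_surjective y
      rw [← map_mul, Ideal.Quotient.eq, Ideal.mem_span_singleton] at hy
      obtain ⟨c, hc⟩ := hy
      exact ⟨b + H * c, by linear_combination hc⟩
  have kerg : RingHom.ker (g : (A ⧸ Ideal.span {G * H}) →+* (A ⧸ Ideal.span {H})) =
      Ideal.span {Ideal.Quotient.mk _ H} := by
    ext x
    obtain ⟨a, rfl⟩ := Ideal.Quotient.mk_surjective x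
    rw [RingHom.mem_ker]
    change g (Ideal.Quotient.mk _ a) = 0 ↔ _
    rw [kg, Ideal.Quotient.eq_zero_iff_mem, Ideal.mem_span_singleton, Ideal.mem_span_singleton]
    constructor
    · rintro ⟨b, rfl⟩
      exact ⟨Ideal.Quotient.mk _ b, map_mul _ _ _⟩
    · rintro ⟨y, hy⟩
      obtain ⟨b, rfl⟩ := Ideal.Quotient.mk_surjective y
      rw [← map_mul, Ideal.Quotient.eq, Ideal.mem_span_singleton] at hy
      obtain ⟨c, hc⟩ := hy
      exact ⟨b + G * c, by linear_combination hc⟩
  set g' := Ideal.Quotient.mk (Ideal.span {G * H}) G with hg'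
  set h' := Ideal.Quotient.mk (Ideal.span {G * H}) H with hh'
  set u' := Ideal.Quotient.mk (Ideal.span {G * H}) u with hu'
  set v' := Ideal.Quotient.mk (Ideal.span {G * H}) v with hv'
  have of : IsOpenImmersion (affMap f).left := by
    refine key _ f (v' * h') hf (by linear_combination (v' * h') * h1' - u' * v' * h0') ?_
    rw [kerf]
    have h2 : 1 - v' * h' = u' * g' := by linear_combination -h1'
    rw [h2]
    apply le_antisymm
    · rw [Ideal.span_singleton_le_span_singleton]
      exact ⟨g', by linear_combination -g' * h1' + v' * h0'⟩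
    · rw [Ideal.span_singleton_le_span_singleton]
      exact Dvd.intro_left u' rfl
  have og : IsOpenImmersion (affMap g).left := by
    refine key _ g (u' * g') hg (by linear_combination (u' * g') * h1' - u' * v' * h0') ?_
    rw [kerg]
    have h2 : 1 - u' * g' = v' * h' := by linear_combination -h1'
    rw [h2]
    apply le_antisymm
    · rw [Ideal.span_singleton_le_span_singleton]
      exact ⟨h', by linear_combination -h' * h1' + u' * h0'⟩
    · rw [Ideal.span_singleton_le_span_singleton]
      exact Dvd.intro_left v' rfl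
  have rf : Set.range (affMap f).left = {x : PrimeSpectrum (A ⧸ Ideal.span {G * H}) |
      g' ∈ x.asIdeal} := by
    rw [range_affMap _ hf]
    ext x
    constructor
    · intro hx
      refine hx _ ?_
      rw [hg', kf]
      exact Ideal.Quotient.eq_zero_iff_mem.mpr (Ideal.mem_span_singleton_self _)
    · intro hx a ha
      have h3 : a ∈ RingHom.ker (f : (A ⧸ Ideal.span {G * H}) →+* (A ⧸ Ideal.span {G})) := ha
      rw [kerf] at h3
      exact (Ideal.span_singleton_le_iff_mem _).mpr hx h3
  have rg : Set.range (affMap g).left = {x : PrimeSpectrum (A ⧸ Ideal.span {G * H}) |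
      h' ∈ x.asIdeal} := by
    rw [range_affMap _ hg]
    ext x
    constructor
    · intro hx
      refine hx _ ?_
      rw [hh', kg]
      exact Ideal.Quotient.eq_zero_iff_mem.mpr (Ideal.mem_span_singleton_self _)
    · intro hx a ha
      have h3 : a ∈ RingHom.ker (g : (A ⧸ Ideal.span {G * H}) →+* (A ⧸ Ideal.span {H})) := ha
      rw [kerg] at h3
      exact (Ideal.span_singleton_le_iff_mem _).mpr hx h3
  have hc : Set.range (affMap g).left = (Set.range (affMap f).left)ᶜ := by
    rw [rf, rg]
    ext x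
    constructor
    · intro h1 h2
      refine x.2.ne_top ((Ideal.eq_top_iff_one _).mpr ?_)
      rw [← h1']
      exact Ideal.add_mem _ (Ideal.mul_mem_left _ _ h2) (Ideal.mul_mem_left _ _ h1)
    · intro h1
      have h2 : g' * h' ∈ x.asIdeal := by
        rw [h0']
        exact Ideal.zero_mem _
      exact (x.2.mem_or_mem h2).resolve_left h1
  refine ⟨affMap f, affMap g, ⟨closed_affMap _ hf, og, hc⟩, ⟨closed_affMap _ hg, of, ?_⟩⟩
  rw [hc, compl_compl]

/-- the empty scheme in the affine space -/
lemma decomp_empty {A : Type} [CommRing A] [Algebra k A] [Subsingleton A] (N : ℕ) :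
    ∃ (i : (aff k A : SchO k) ⟶ affO k N) (j : affO k N ⟶ affO k N),
      IsDecomp i j ∧ IsDecomp j i := by
  let f : MvPolynomial (Fin N) k →ₐ[k] A := MvPolynomial.aeval fun _ => 0
  have hf : Function.Surjective f := fun x => ⟨0, Subsingleton.elim _ _⟩
  have he : IsEmpty (aff k A).left :=
    (inferInstance : IsEmpty (PrimeSpectrum A))
  have he' : IsEmpty ((aff k A).left : Type) := he
  have r1 : Set.range (affMap f).left = (∅ : Set (affO k N).left) :=
    Set.range_eq_empty _
  have r2 : Set.range (𝟙 (affO k N) : affO k N ⟶ affO k N).left =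
      (Set.univ : Set (affO k N).left) := by
    rw [Over.id_left]
    exact Set.range_eq_univ.mpr fun x => ⟨x, rfl⟩
  refine ⟨affMap f, 𝟙 _, ⟨closed_affMap _ hf, ?_, ?_⟩, ⟨?_, ?_, ?_⟩⟩
  · rw [Over.id_left]
    infer_instance
  · exact r2.trans ((congrArg (fun s : Set (affO k N).left => sᶜ) r1).trans Set.compl_empty).symm
  · rw [Over.id_left]
    infer_instance
  · infer_instance
  · exact r1.trans ((congrArg (fun s : Set (affO k N).left => sᶜ) r2).trans Set.compl_univ).symm

end Pool.Agent.Helper53.AE
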