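import Pool.Agent.Helper53.AE.Arr

/-!
# The disjoint union of two systems of quadratic equations
-/

set_option autoImplicit false

universe v w

namespace Pool.Agent.Helper53.AE

open Q54.CU Q54.TG CategoryTheory Limits MonoidalCategory AlgebraicGeometry
open Pool.Agent.Y116.UV (aff affMap)
open MvPolynomial (aeval X C)

variable {k : Type} [Field k] {M M₀ M' r r₀ r' : ℕ} (eI : ((Fin M₀ ⊕ Fin M') ⊕ Bool) ≃ Fin M)
  (eJ : ((Bool ⊕ (Fin M₀ ⊕ Fin M')) ⊕ (Fin (r₀ + 1) ⊕ Fin (r' + 1))) ≃ Fin (r + 1))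
  (a : Fin (r₀ + 1) → Option (Fin M₀) → Option (Fin M₀) → ℤ)
  (a' : Fin (r' + 1) → Option (Fin M') → Option (Fin M') → ℤ)

/-- the coordinate ring of the zero scheme -/
abbrev Rg (k : Type) [Field k] {M r : ℕ}
    (a : Fin (r + 1) → Option (Fin M) → Option (Fin M) → ℤ) : Type :=
  MvPolynomial (Fin M) k ⧸ Ideal.span (Set.range (quad k a))

/-- the values of the coordinates on the first space -/
noncomputable def val (k : Type) [Field k] (m : Fin M) : Rg k a :=
  match eI.symm m with
  | Sum.inl (Sum.inl i) => Ideal.Quotient.mk _ (X i)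
  | Sum.inl (Sum.inr _) => 0
  | Sum.inr true => 0
  | Sum.inr false => 1

lemma val_x (i : Fin M₀) : val eI a k (vx eI i) = Ideal.Quotient.mk _ (X i) := by
  unfold val vx
  rw [Equiv.symm_apply_apply]

lemma val_y (i : Fin M') : val eI a k (vy eI i) = 0 := by
  unfold val vy
  rw [Equiv.symm_apply_apply]

lemma val_z : val eI a k (vz eI) = 0 := by
  unfold val vz
  rw [Equiv.symm_apply_apply]

lemma val_w : val eI a k (vw eI) = 1 := by
  unfold val vw
  rw [Equiv.symm_apply_apply]

lemma mk_quad {M r : ℕ} (a : Fin (r + 1) → Option (Fin M) → Option (Fin M) → ℤ)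
    (j : Fin (r + 1)) : Ideal.Quotient.mk (Ideal.span (Set.range (quad k a))) (quad k a j) = 0 :=
  Ideal.Quotient.eq_zero_iff_mem.mpr (Ideal.subset_span ⟨j, rfl⟩)

lemma quad_eq {M r : ℕ} (a : Fin (r + 1) → Option (Fin M) → Option (Fin M) → ℤ)
    (j : Fin (r + 1)) : quad k a j = form (a j) (co k) := rfl

lemma mk_quad' {M r : ℕ} (a : Fin (r + 1) → Option (Fin M) → Option (Fin M) → ℤ)
    (j : Fin (r + 1)) :
    form (a j) (fun o => Ideal.Quotient.mk (Ideal.span (Set.range (quad k a))) (co k o)) = 0 := by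
  rw [← form_map]
  exact mk_quad a j

lemma val_zero (p : MvPolynomial (Fin M) k)
    (hp : p ∈ Ideal.span (Set.range (quad k (glue eI eJ a a')))) :
    aeval (val eI a k) p = 0 := by
  have h1 : Ideal.span (Set.range (quad k (glue eI eJ a a'))) ≤
      RingHom.ker (aeval (R := k) (val eI a k)) := by
    rw [Ideal.span_le]
    rintro _ ⟨t, rfl⟩
    rw [SetLike.mem_coe, RingHom.mem_ker]
    obtain ⟨s, rfl⟩ := eJ.surjective t
    rcases s with ((_ | _) | (i | i)) | (j | j)
    · rw [glue_2]
      simp [val_z, val_w]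
    · rw [glue_1]
      simp [val_z, val_w]
    · rw [glue_3]
      simp [val_z]
    · rw [glue_4]
      simp [val_y]
    · rw [glue_5, form_map]
      refine Eq.trans ?_ (mk_quad' (k := k) a j)
      congr 1
      funext o
      cases o
      · exact (MvPolynomial.aeval_X _ _).trans (val_w eI a)
      · exact (MvPolynomial.aeval_X _ _).trans (val_x eI a _)
    · rw [glue_6, form_map]
      have h2 : (fun o : Option (Fin M') => aeval (val eI a k)
          (o.elim (X (vz eI)) fun i => X (vy eI i) : MvPolynomial (Fin M) k)) = fun _ => 0 := by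
        funext o
        cases o <;> simp [val_z, val_y]
      rw [h2, form_zero]
  exact h1 hp

/-- the map to the coordinate ring of the first space -/
noncomputable def toFst : Rg k (glue eI eJ a a') →ₐ[k] Rg k a :=
  Ideal.Quotient.liftₐ _ (aeval (val eI a k)) (val_zero eI eJ a a')

lemma toFst_mk (p : MvPolynomial (Fin M) k) :
    toFst eI eJ a a' (Ideal.Quotient.mk _ p) = aeval (val eI a k) p := rfl

lemma toFst_surj : Function.Surjective (toFst (k := k) eI eJ a a') := by
  intro b
  obtain ⟨p, rfl⟩ := Ideal.Quotient.mk_surjective b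
  refine ⟨Ideal.Quotient.mk _ (MvPolynomial.rename (vx eI) p), ?_⟩
  rw [toFst_mk, MvPolynomial.aeval_rename]
  have h1 : (aeval (val eI a k ∘ vx eI) : MvPolynomial (Fin M₀) k →ₐ[k] Rg k a) =
      Ideal.Quotient.mkₐ k _ := by
    apply MvPolynomial.algHom_ext
    intro i
    rw [MvPolynomial.aeval_X]
    exact val_x eI a i
  rw [h1]
  rfl

/-- the idempotent -/
noncomputable def idz : Rg k (glue eI eJ a a') := Ideal.Quotient.mk _ (X (vz eI))

lemma rel1 : (idz eI eJ a a' : Rg k (glue eI eJ a a')) +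
    Ideal.Quotient.mk _ (X (vw eI)) = 1 := by
  have h1 := mk_quad (k := k) (glue eI eJ a a') (eJ (Sum.inl (Sum.inl true)))
  rw [glue_1, map_sub, map_add, map_one, sub_eq_zero] at h1
  exact h1

lemma rel2 : (idz eI eJ a a' : Rg k (glue eI eJ a a')) *
    Ideal.Quotient.mk _ (X (vw eI)) = 0 := by
  have h1 := mk_quad (k := k) (glue eI eJ a a') (eJ (Sum.inl (Sum.inl false)))
  rwa [glue_2, map_mul] at h1

lemma idem : (idz eI eJ a a' : Rg k (glue eI eJ a a')) * idz eI eJ a a' = idz eI eJ a a' := by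
  linear_combination (idz eI eJ a a' : Rg k (glue eI eJ a a')) * rel1 (k := k) eI eJ a a' -
    rel2 (k := k) eI eJ a a'

/-- the projection modulo the idempotent -/
noncomputable def prz : Rg k (glue eI eJ a a') →ₐ[k]
    Rg k (glue eI eJ a a') ⧸ Ideal.span {(idz eI eJ a a' : Rg k (glue eI eJ a a'))} :=
  Ideal.Quotient.mkₐ k _

lemma prz_z : prz (k := k) eI eJ a a' (idz eI eJ a a') = 0 :=
  Ideal.Quotient.eq_zero_iff_mem.mpr (Ideal.mem_span_singleton_self _)

lemma prz_w : prz (k := k) eI eJ a a' (Ideal.Quotient.mk _ (X (vw eI))) = 1 := by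
  have h1 := congrArg (prz (k := k) eI eJ a a') (rel1 eI eJ a a')
  rwa [map_add, prz_z, zero_add, map_one] at h1

lemma back_zero (p : MvPolynomial (Fin M₀) k) (hp : p ∈ Ideal.span (Set.range (quad k a))) :
    aeval (fun i => prz (k := k) eI eJ a a' (Ideal.Quotient.mk _ (X (vx eI i)))) p = 0 := by
  have h1 : Ideal.span (Set.range (quad k a)) ≤ RingHom.ker (aeval (R := k)
      (fun i => prz (k := k) eI eJ a a' (Ideal.Quotient.mk _ (X (vx eI i))))) := by
    rw [Ideal.span_le]
    rintro _ ⟨j, rfl⟩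
    rw [SetLike.mem_coe, RingHom.mem_ker]
    have h2 := congrArg (prz (k := k) eI eJ a a')
      (mk_quad (k := k) (glue eI eJ a a') (eJ (Sum.inr (Sum.inl j))))
    rw [glue_5, form_map, form_map, map_zero] at h2
    rw [quad_eq, form_map]
    refine Eq.trans ?_ h2
    congr 1
    funext o
    cases o
    · exact (map_one _).trans (prz_w eI eJ a a').symm
    · exact MvPolynomial.aeval_X _ _
  exact h1 hp

/-- the map back -/
noncomputable def back : Rg k a →ₐ[k]
    Rg k (glue eI eJ a a') ⧸ Ideal.span {(idz eI eJ a a' : Rg k (glue eI eJ a a'))} :=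
  Ideal.Quotient.liftₐ _ (aeval fun i => prz (k := k) eI eJ a a'
    (Ideal.Quotient.mk _ (X (vx eI i)))) (back_zero eI eJ a a')

lemma back_comp : (back (k := k) eI eJ a a').comp (toFst eI eJ a a') = prz eI eJ a a' := by
  apply Ideal.Quotient.algHom_ext
  apply MvPolynomial.algHom_ext
  intro m
  obtain ⟨s, rfl⟩ := eI.surjective m
  change back eI eJ a a' (toFst eI eJ a a' (Ideal.Quotient.mk _ (X (eI s)))) =
    prz eI eJ a a' (Ideal.Quotient.mk _ (X (eI s)))
  rw [toFst_mk, MvPolynomial.aeval_X]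
  rcases s with (i | i) | (_ | _)
  · have h1 : val eI a k (eI (Sum.inl (Sum.inl i))) = Ideal.Quotient.mk _ (X i) := val_x eI a i
    rw [h1]
    change aeval (fun i => prz (k := k) eI eJ a a' (Ideal.Quotient.mk _ (X (vx eI i)))) (X i) = _
    rw [MvPolynomial.aeval_X]
    rfl
  · have h1 : val eI a k (eI (Sum.inl (Sum.inr i))) = 0 := val_y eI a i
    rw [h1, map_zero]
    have h2 := congrArg (prz (k := k) eI eJ a a')
      (mk_quad (k := k) (glue eI eJ a a') (eJ (Sum.inl (Sum.inr (Sum.inr i)))))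
    rw [glue_4, map_mul, map_mul, map_zero, prz_w] at h2
    exact ((mul_one _).symm.trans h2).symm
  · have h1 : val eI a k (eI (Sum.inr false)) = 1 := val_w eI a
    rw [h1, map_one]
    exact (prz_w eI eJ a a').symm
  · have h1 : val eI a k (eI (Sum.inr true)) = 0 := val_z eI a
    rw [h1, map_zero]
    exact (prz_z eI eJ a a').symm

lemma ker_toFst : RingHom.ker (toFst (k := k) eI eJ a a' : Rg k (glue eI eJ a a') →+* Rg k a) =
    Ideal.span {(idz eI eJ a a' : Rg k (glue eI eJ a a'))} := by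
  apply le_antisymm
  · intro x hx
    have h1 : toFst eI eJ a a' x = 0 := hx
    have h2 := DFunLike.congr_fun (back_comp (k := k) eI eJ a a') x
    rw [AlgHom.comp_apply, h1, map_zero] at h2
    exact Ideal.Quotient.eq_zero_iff_mem.mp h2.symm
  · rw [Ideal.span_singleton_le_iff_mem]
    change toFst eI eJ a a' (idz eI eJ a a') = 0
    unfold idz
    rw [toFst_mk, MvPolynomial.aeval_X]
    exact val_z eI a

/-- a decomposition given by an idempotent -/
lemma decomp_idem' {A B : Type} [CommRing A] [CommRing B] [Algebra k A] [Algebra k B]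
    (f : A →ₐ[k] B) (hf : Function.Surjective f) (e : A) (he : e * e = e)
    (kerf : RingHom.ker (f : A →+* B) = Ideal.span {e}) :
    ∃ j : (aff k (A ⧸ Ideal.span {1 - e}) : SchO k) ⟶ aff k A,
      IsDecomp (X := (aff k A : SchO k)) (affMap f) j ∧ IsDecomp (X := (aff k A : SchO k)) j (affMap f) :=
  ⟨affMap (Ideal.Quotient.mkₐ k (Ideal.span {1 - e})),
    decomp_idem f (Ideal.Quotient.mkₐ k (Ideal.span {1 - e})) hf
      (Ideal.Quotient.mkₐ_surjective k _) e he kerf (Ideal.Quotient.mkₐ_ker k _)⟩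

variable {𝓜 : Type w} [Category.{v} 𝓜] [Abelian 𝓜] [MonoidalCategory 𝓜]
  {h : ℤ → SchO k → 𝓜}

/-- **The homology of the first space is a direct summand.** -/
theorem retract_glue (hs : IsSumDim h) (n : ℤ) :
    IsRetract (h n (zer (quad k a))) (h n (zer (quad k (glue eI eJ a a')))) := by
  obtain ⟨j, h1, h2⟩ := decomp_idem' (toFst (k := k) eI eJ a a') (toFst_surj eI eJ a a')
    (idz eI eJ a a') (idem eI eJ a a') (ker_toFst eI eJ a a')
  exact hs.sum (affMap (toFst (k := k) eI eJ a a')) j
    (isVar_zer (quad k (glue eI eJ a a'))) h1 h2 n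

end Pool.Agent.Helper53.AE
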