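import Pool.Agent.Helper53.AE.Geo
import Pool.Agent.Helper24.SE.Count

/-!
# The homology of hypersurfaces and of their complements
-/

set_option autoImplicit false

universe v w

namespace Pool.Agent.Helper53.AE

open Q54.CU Q54.TG CategoryTheory Limits MonoidalCategory AlgebraicGeometry
open Pool.Agent.Y116.UV (aff affMap affIso)
open Pool.Agent.Helper67.AE (hypO_eq isVar_aff affO_eq)

section tann

variable {𝓜 : Type w} [Category.{v} 𝓜] [Abelian 𝓜] [MonoidalCategory 𝓜]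

lemma isTann_tann (S : Set 𝓜) : IsTann (tann S) where
  iso e hA := fun C hC hS => hC.iso e (hA C hC hS)
  unit := fun _ hC _ => hC.unit
  tensor hA hB := fun C hC hS => hC.tensor (hA C hC hS) (hB C hC hS)
  sum hA hB := fun C hC hS => hC.sum (hA C hC hS) (hB C hC hS)
  sub f hf hB := fun C hC hS => hC.sub f hf (hB C hC hS)
  quot f hf hA := fun C hC hS => hC.quot f hf (hA C hC hS)
  dual e hA := fun C hC hS => hC.dual e (hA C hC hS)
  inverse e hA := fun C hC hS => hC.inverse e (hA C hC hS)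

lemma tann_le {L : 𝓜} {S T : Set 𝓜}
    (h : ∀ C : 𝓜 → Prop, IsTann C → C L → (∀ B ∈ T, C B) → ∀ B ∈ S, C B) (A : 𝓜)
    (hA : tann (insert L S) A) : tann (insert L T) A := by
  intro C hC hT
  refine hA C hC ?_
  rintro B (rfl | hB)
  · exact hT _ (Or.inl rfl)
  · exact h C hC (hT _ (Or.inl rfl)) (fun B hB => hT B (Or.inr hB)) B hB

lemma tann_ext {L : 𝓜} {S T : Set 𝓜}
    (h : ∀ C : 𝓜 → Prop, IsTann C → C L → ((∀ B ∈ S, C B) ↔ ∀ B ∈ T, C B)) :
    tann (insert L S) = tann (insert L T) := by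
  funext A
  exact propext ⟨tann_le (fun C hC hL hT => (h C hC hL).mpr hT) A,
    tann_le (fun C hC hL hS => (h C hC hL).mp hS) A⟩

end tann

variable {k : Type} [Field k] {𝓜 : Type w} [Category.{v} 𝓜] [Abelian 𝓜] [MonoidalCategory 𝓜]

/-- Two more standard properties of the Borel-Moore homology: if `X` is the disjoint union of the
open and closed subschemes `Z` and `U`, then the homology of `Z` is a direct summand of that of `X`;
and `H_n(X)` vanishes for `n > 2 dim X`. -/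
structure IsSumDim (h : ℤ → SchO k → 𝓜) : Prop where
  sum : ∀ {Z X U : SchO k} (i : Z ⟶ X) (j : U ⟶ X), IsVar X → IsDecomp i j → IsDecomp j i →
    ∀ n, IsRetract (h n Z) (h n X)
  dim : ∀ (X : SchO k) (d : ℕ), IsVar X → topologicalKrullDim X.left ≤ d →
    ∀ n : ℤ, 2 * d < n → IsZero (h n X)

variable [MonoidalPreadditive 𝓜] {h : ℤ → SchO k → 𝓜} {L : 𝓜}

section basic

variable (hh : IsMotHomology h L)

include hh

omit [MonoidalPreadditive 𝓜] in
lemma iso_h {X Y : SchO k} (hX : IsVar X) (hY : IsVar Y) (e : X ≅ Y) (n : ℤ) :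
    Nonempty (h n X ≅ h n Y) := by
  have h1 : IsIso e.hom.left := (inferInstance : IsIso ((Over.forget _).map e.hom))
  obtain ⟨f⟩ := hh.bundle 0 e.hom hX hY (bundle_iso e.hom.left) n
  have h2 : n + 2 * ((0 : ℕ) : ℤ) = n := by simp
  rw [h2] at f
  exact ⟨f ≪≫ ρ_ _⟩

lemma aff_all {C : 𝓜 → Prop} (hC : IsTann C) (hL : C L) (N : ℕ) (n : ℤ) :
    C (h n (affO k N)) := by
  by_cases h1 : n = 2 * N
  · subst h1
    obtain ⟨f⟩ := aff_top hh (L := L) (k := k) N
    exact hC.iso ⟨f.symm⟩ (hC.tensor hC.unit (hC.pow hL N))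
  · exact hC.zero (aff_zero hh N h1)

variable (hs : IsSumDim h)

include hs

lemma zero_empty {A : Type} [CommRing A] [Algebra k A] [Subsingleton A] (n : ℤ) :
    IsZero (h n (aff k A)) := by
  obtain ⟨N, hN⟩ : ∃ N : ℕ, n ≠ 2 * N := by
    by_cases h0 : n = 0
    · exact ⟨1, by rw [h0]; norm_num⟩
    · exact ⟨0, by simpa using h0⟩
  obtain ⟨i, j, h1, h2⟩ := decomp_empty (k := k) (A := A) N
  obtain ⟨s, r, e⟩ := hs.sum i j isVar_affO h1 h2 n
  have hz := aff_zero hh N hN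
  rw [IsZero.iff_id_eq_zero, ← e, hz.eq_of_tgt s 0, zero_comp]

lemma hyp_above {r : ℕ} {F : MvPolynomial (Fin r) k} (hF : F ≠ 0) {n : ℤ}
    (hn : 2 * r - 1 ≤ n) : IsZero (h n (hyp F)) := by
  obtain _ | d := r
  · have h1 : Subsingleton (MvPolynomial (Fin 0) k ⧸ Ideal.span {F}) := by
      rw [Ideal.Quotient.subsingleton_iff, Ideal.span_singleton_eq_top]
      obtain ⟨c, rfl⟩ := MvPolynomial.C_surjective (Fin 0) F
      exact (isUnit_iff_ne_zero.mpr (fun h => hF (by rw [h, map_zero]))).map MvPolynomial.C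
    exact zero_empty hh hs n
  · refine hs.dim _ d (isVar_hyp F) ?_ n (by push_cast at hn ⊢; omega)
    unfold hyp
    exact (Pool.Agent.Z125.UN.topDim_aff _).le.trans
      (Pool.Agent.Z125.UN.dim_quot _ (by rwa [Ne, Ideal.span_singleton_eq_bot]))

variable {C : 𝓜 → Prop} (hC : IsTann C) (hL : C L)

include hC hL

/-- from the hypersurface to the complement -/
lemma pri_of_hyp {r : ℕ} {F : MvPolynomial (Fin r) k} (hF : F ≠ 0)
    (hV : ∀ i, C (h i (hyp F))) (m : ℤ) : C (h m (pri F)) := by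
  obtain ⟨i, j, hd⟩ := decomp F
  by_cases h1 : m = 2 * r
  · subst h1
    obtain ⟨e⟩ := compl_top hh i j hd (hyp_above hh hs hF (by omega))
      (hyp_above hh hs hF (by omega))
    obtain ⟨f⟩ := aff_top hh (L := L) (k := k) r
    exact hC.iso ⟨f.symm ≪≫ e⟩ (hC.tensor hC.unit (hC.pow hL r))
  by_cases h2 : m = 2 * r + 1
  · subst h2
    exact hC.zero (compl_above hh i j hd (hyp_above hh hs hF (by omega)))
  obtain ⟨f⟩ := compl_iso hh i j hd (n := m - 1) (by omega) (by omega)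
  rw [sub_add_cancel] at f
  exact hC.iso ⟨f.symm⟩ (hV _)

omit hL in
/-- from the complement to the hypersurface -/
lemma hyp_of_pri {r : ℕ} {F : MvPolynomial (Fin r) k} (hF : F ≠ 0)
    (hD : ∀ i, C (h i (pri F))) (m : ℤ) : C (h m (hyp F)) := by
  obtain ⟨i, j, hd⟩ := decomp F
  by_cases h1 : 2 * (r : ℤ) - 1 ≤ m
  · exact hC.zero (hyp_above hh hs hF h1)
  obtain ⟨f⟩ := compl_iso hh i j hd (n := m) (by omega) (by omega)
  exact hC.iso ⟨f⟩ (hD _)

lemma zero_both {r : ℕ} : (∀ m, C (h m (pri (0 : MvPolynomial (Fin r) k)))) ∧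
    ∀ m, C (h m (hyp (0 : MvPolynomial (Fin r) k))) := by
  constructor
  · intro m
    have h1 : Subsingleton (Localization.Away (0 : MvPolynomial (Fin r) k)) :=
      IsLocalization.subsingleton (M := Submonoid.powers (0 : MvPolynomial (Fin r) k))
        (Submonoid.mem_powers 0)
    exact hC.zero (zero_empty hh hs m)
  · intro m
    obtain ⟨e⟩ := iso_h hh (isVar_hyp (0 : MvPolynomial (Fin r) k)) isVar_affO
      (affIso (((Ideal.quotientEquivAlgOfEq k (Ideal.span_singleton_eq_bot.mpr rfl)).trans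
        (AlgEquiv.quotientBot k (MvPolynomial (Fin r) k))).symm)) m
    exact hC.iso ⟨e.symm⟩ (aff_all hh hC hL r m)

lemma both {r : ℕ} (F : MvPolynomial (Fin r) k) :
    (∀ m, C (h m (pri F))) ↔ ∀ m, C (h m (hyp F)) := by
  by_cases hF : F = 0
  · subst hF
    have h1 := zero_both hh hs hC hL (r := r)
    exact ⟨fun _ => h1.2, fun _ => h1.1⟩
  · exact ⟨fun h1 => hyp_of_pri hh hs hC hF h1, fun h1 => pri_of_hyp hh hs hC hL hF h1⟩

end basic

section tann2

variable (hh : IsMotHomology h L) (hs : IsSumDim h)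

include hh hs

/-- The categories generated by the homology of the hypersurface and of its complement. -/
theorem tann_pri {r : ℕ} (F : MvPolynomial (Fin r) k) :
    tann (insert L (homs h (pri F))) = tann (insert L (homs h (hyp F))) := by
  refine tann_ext fun C hC hL => ?_
  have h1 := both hh hs hC hL F
  constructor
  · rintro h2 _ ⟨i, rfl⟩
    exact h1.mp (fun m => h2 _ ⟨m, rfl⟩) i
  · rintro h2 _ ⟨i, rfl⟩
    exact h1.mpr (fun m => h2 _ ⟨m, rfl⟩) i

/-- Disjoint hypersurfaces. -/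
theorem tann_mul {r : ℕ} (G H : MvPolynomial (Fin r) k) (hGH : ∃ u v, u * G + v * H = 1)
    (A : 𝓜) (hA : tann (insert L (homs h (pri G))) A) :
    tann (insert L (homs h (pri (G * H)))) A := by
  rw [tann_pri hh hs] at hA ⊢
  refine tann_le (fun C hC hL hT => ?_) A hA
  rintro _ ⟨n, rfl⟩
  obtain ⟨i, j, h1, h2⟩ := decomp_mul (k := k) G H hGH
  exact hC.retract (hs.sum i j (isVar_hyp _) h1 h2 n) (hT _ ⟨n, rfl⟩)

/-- The smallest category. -/
theorem tann_zero {r : ℕ} (T : Set 𝓜) (A : 𝓜)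
    (hA : tann (insert L (homs h (pri (0 : MvPolynomial (Fin r) k)))) A) :
    tann (insert L T) A := by
  refine tann_le (fun C hC hL hT => ?_) A hA
  rintro _ ⟨n, rfl⟩
  exact (zero_both hh hs hC hL).1 n

omit hs in
/-- Isomorphic schemes. -/
theorem tann_iso {X Y : SchO k} (hX : IsVar X) (hY : IsVar Y) (e : X ≅ Y) :
    tann (insert L (homs h X)) = tann (insert L (homs h Y)) := by
  refine tann_ext fun C hC hL => ?_
  constructor
  · rintro h2 _ ⟨i, rfl⟩
    obtain ⟨f⟩ := iso_h hh hX hY e i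
    exact hC.iso ⟨f⟩ (h2 _ ⟨i, rfl⟩)
  · rintro h2 _ ⟨i, rfl⟩
    obtain ⟨f⟩ := iso_h hh hX hY e i
    exact hC.iso ⟨f.symm⟩ (h2 _ ⟨i, rfl⟩)

end tann2

section pad

/-- The same equations, and the equation `0 = 0` several times. -/
noncomputable def pad {M r : ℕ} (q : Fin (r + 1) → MvPolynomial (Fin M) k) (r' : ℕ) :
    Fin (r' + 1) → MvPolynomial (Fin M) k :=
  fun j => if hj : (j : ℕ) < r + 1 then q ⟨j, hj⟩ else 0

lemma range_pad {M r : ℕ} (q : Fin (r + 1) → MvPolynomial (Fin M) k) {r' : ℕ} (hr : r ≤ r') :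
    Set.range (cplInc (pad q r')).left = Set.range (cplInc q).left := by
  change Set.range (Q54.CU.compl (pad q r')).ι = Set.range (Q54.CU.compl q).ι
  rw [Scheme.Opens.range_ι, Scheme.Opens.range_ι]
  ext x
  change x ∈ Q54.CU.compl (pad q r') ↔ x ∈ Q54.CU.compl q
  rw [mem_compl, mem_compl]
  constructor
  · rintro ⟨j, hj⟩
    by_cases h1 : (j : ℕ) < r + 1
    · refine ⟨⟨j, h1⟩, ?_⟩
      rwa [pad, dif_pos h1] at hj
    · rw [pad, dif_neg h1] at hj
      exact absurd (Ideal.zero_mem _) hj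
  · rintro ⟨j, hj⟩
    refine ⟨⟨j, by omega⟩, ?_⟩
    rw [pad, dif_pos (show (j : ℕ) < r + 1 from j.2)]
    exact hj

omit [Abelian 𝓜] [MonoidalCategory 𝓜] [MonoidalPreadditive 𝓜] in
lemma setup_pad {X : SchO k} {s M r : ℕ} {q : Fin (r + 1) → MvPolynomial (Fin M) k}
    (S : Setup h X s M r q) {r' : ℕ} (hr : r ≤ r') : Nonempty (Setup h X s M r' (pad q r')) :=
  ⟨⟨S.T, S.p, S.i, S.varT, S.varX, S.bundle,
    ⟨S.dec.closed, inferInstance, (range_pad q hr).trans S.dec.range⟩, S.top, S.top'⟩⟩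

lemma hyp_iso {M r : ℕ} (q : Fin (r + 1) → MvPolynomial (Fin M) k) : Nonempty (hypO q (1 : k) ≅
    hyp (MvPolynomial.rename finSumFinEquiv (hypPoly q (1 : k)))) := by
  rw [hypO_eq]
  let e : HypRing q (1 : k) ≃ₐ[k] MvPolynomial (Fin (M + (r + 1))) k ⧸
      Ideal.span {MvPolynomial.rename finSumFinEquiv (hypPoly q (1 : k))} :=
    Ideal.quotientEquivAlg _ _ (MvPolynomial.renameEquiv k finSumFinEquiv) (by
      rw [Ideal.map_span, Set.image_singleton]
      rfl)
  exact ⟨(affIso e).symm⟩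

/-- **Universality of hypersurfaces in each large dimension.** -/
theorem exists_hyp (hh : IsMotHomology h L) {L' : 𝓜} (hL : L ⊗ L' ≅ 𝟙_ 𝓜) {X : SchO k}
    (hX : IsVar X) (hT : HasAffineTorsor X) : ∃ N : ℕ, ∀ n ≥ N, ∃ F : MvPolynomial (Fin n) k,
      tann (insert L (homs h (hyp F))) = tann (insert L (homs h X)) := by
  obtain ⟨s, M, r, q, -, ⟨S⟩⟩ := exists_setup hh hX hT
  refine ⟨M + (r + 1), fun n hn => ?_⟩
  obtain ⟨r', rfl⟩ : ∃ r', n = M + (r' + 1) := ⟨n - M - 1, by omega⟩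
  obtain ⟨S'⟩ := setup_pad S (r' := r') (by omega)
  obtain ⟨e⟩ := hyp_iso (pad q r')
  refine ⟨MvPolynomial.rename finSumFinEquiv (hypPoly (pad q r') (1 : k)), ?_⟩
  rw [← tann_iso hh (isVar_hypO _ _) (isVar_hyp _) e]
  exact tann_eq' hh hL S'

end pad

end Pool.Agent.Helper53.AE
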