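import Pool.Agent.Helper53.AE.Ter

/-!
# One array with entries `0`, `1` and `-1` gives many
-/

set_option autoImplicit false

namespace Pool.Agent.Helper53.AE

section count

/-- **One exception gives many exceptions.** -/
theorem many4 {Bad : ∀ M r : ℕ, Arr M r → Prop}
    (hglue : ∀ {M M₀ M' r r₀ r' : ℕ} (eI : ((Fin M₀ ⊕ Fin M') ⊕ Bool) ≃ Fin M)
      (eJ : ((Bool ⊕ (Fin M₀ ⊕ Fin M')) ⊕ (Fin (r₀ + 1) ⊕ Fin (r' + 1))) ≃ Fin (r + 1))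
      (a : Arr M₀ r₀) (a' : Arr M' r'), Bad M₀ r₀ a → Bad M r (glue eI eJ a a'))
    {M₀ r₀ : ℕ} {a : Arr M₀ r₀} (hb : ∀ j u v, |a j u v| ≤ 1) (ha : Bad M₀ r₀ a) {ε : ℝ}
    (hε : 0 < ε) :
    ∃ C : ℕ, ∀ B M r : ℕ, 1 ≤ B → C ≤ M → C * M ≤ r →
      (((2 * B + 1 : ℕ) : ℝ) ^ ((r + 1) * (M + 1) ^ 2)) ^ (1 - ε) <
        ((Exc3 Bad M r B).ncard : ℝ) := by
  obtain ⟨C, hC1, hC2, hC⟩ := exponents hε M₀ r₀
  refine ⟨C, fun B M r hB hM hr => ?_⟩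
  have h1 := hC M r hM hr
  obtain ⟨M', r', eM, er, ⟨eI⟩, ⟨eJ⟩⟩ := exists_equiv (M := M) (M₀ := M₀) (r := r) (r₀ := r₀)
    (by omega) (by nlinarith)
  have hB' : ∀ j u v, |a j u v| ≤ (B : ℤ) := fun j u v => (hb j u v).trans (by
    exact_mod_cast hB)
  have h2 : (2 * B + 1) ^ ((r' + 1) * (M' + 1) ^ 2) ≤ (Exc3 Bad M r B).ncard := by
    rw [← card_box3, ← Set.ncard_coe_finset]
    refine Set.ncard_le_ncard_of_injOn (glue eI eJ a) (fun b hb => ?_)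
      (glue_inj eI eJ a).injOn (finite_exc3 Bad M r B)
    exact ⟨glue_bound eI eJ (by omega) hB' (mem_box3.mp (Finset.mem_coe.mp hb)),
      hglue eI eJ a b ha⟩
  have h3 : (((2 * B + 1) ^ ((r' + 1) * (M' + 1) ^ 2) : ℕ) : ℝ) ≤ ((Exc3 Bad M r B).ncard : ℝ) := by
    exact_mod_cast h2
  refine lt_of_lt_of_le ?_ h3
  rw [eM, er]
  have hb1 : (1 : ℝ) < ((2 * B + 1 : ℕ) : ℝ) := by
    exact_mod_cast (by omega : 1 < 2 * B + 1)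
  have hb0 : (0 : ℝ) ≤ ((2 * B + 1 : ℕ) : ℝ) := by positivity
  rw [Nat.cast_pow, ← Real.rpow_natCast, ← Real.rpow_natCast, ← Real.rpow_mul hb0]
  refine Real.rpow_lt_rpow_of_exponent_lt hb1 ?_
  rw [mul_comm]
  exact h1

end count

end Pool.Agent.Helper53.AE
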