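import Pool.Agent.Helper53.AE.Cnt

/-!
# Universality of cubic hypersurfaces with integral coefficients
-/

set_option autoImplicit false

universe v w

namespace Pool.Agent.Helper53.AE

open Q54.CU Q54.TG CategoryTheory Limits MonoidalCategory AlgebraicGeometry Filter
open Pool.Agent.Y116.UV (aff)
open Pool.Agent.Helper67.AE (hypO_eq)

section deg

variable {M : ℕ}

/-- `1` and the coordinates -/
noncomputable def coZ (o : Option (Fin M)) : MvPolynomial (Fin M) ℤ :=
  o.elim 1 MvPolynomial.X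

lemma form_add {κ R : Type} [Fintype κ] [CommRing R] (a b : κ → κ → ℤ) (v : κ → R) :
    form (fun i l => a i l + b i l) v = form a v + form b v := by
  unfold form
  rw [← Finset.sum_add_distrib]
  refine Finset.sum_congr rfl fun i _ => ?_
  rw [← Finset.sum_add_distrib]
  refine Finset.sum_congr rfl fun l _ => ?_
  push_cast
  ring

lemma form_single {κ R : Type} [Fintype κ] [DecidableEq κ] [CommRing R] (c : ℤ) (i₀ l₀ : κ)
    (v : κ → R) : form (fun i l => if i = i₀ ∧ l = l₀ then c else 0) v = c * v i₀ * v l₀ := by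
  unfold form
  rw [Finset.sum_eq_single i₀, Finset.sum_eq_single l₀]
  · dsimp only
    rw [if_pos ⟨rfl, rfl⟩]
  · intro w _ hw
    dsimp only
    rw [if_neg fun h => hw h.2]
    simp
  · intro h
    exact absurd (Finset.mem_univ _) h
  · intro u _ hu
    refine Finset.sum_eq_zero fun w _ => ?_
    dsimp only
    rw [if_neg fun h => hu h.1]
    simp
  · intro h
    exact absurd (Finset.mem_univ _) h

lemma exists_pair (s : Fin M →₀ ℕ) (hs : (s.sum fun _ e => e) ≤ 2) (c : ℤ) :
    ∃ u v : Option (Fin M), MvPolynomial.monomial s c = (c : MvPolynomial (Fin M) ℤ) * coZ u * coZ v := by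
  have h1 : Multiset.card (Finsupp.toMultiset s) ≤ 2 := by
    rw [Finsupp.card_toMultiset]
    exact hs
  have h0 : ∀ t : Fin M →₀ ℕ, MvPolynomial.monomial t c =
      (c : MvPolynomial (Fin M) ℤ) * MvPolynomial.monomial t 1 := by
    intro t
    rw [← eq_intCast (MvPolynomial.C : ℤ →+* MvPolynomial (Fin M) ℤ) c, MvPolynomial.C_mul_monomial,
      mul_one]
  have hX : ∀ i : Fin M, (MvPolynomial.X i : MvPolynomial (Fin M) ℤ) =
      MvPolynomial.monomial (Finsupp.single i 1) 1 := fun i => rfl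
  rw [h0]
  interval_cases hc : Multiset.card (Finsupp.toMultiset s)
  · have h2 := Multiset.card_eq_zero.mp hc
    have h3 : s = 0 := by
      have := congrArg Multiset.toFinsupp h2
      rwa [Finsupp.toMultiset_toFinsupp, map_zero] at this
    refine ⟨none, none, ?_⟩
    subst h3
    simp [coZ]
  · obtain ⟨i, h2⟩ := Multiset.card_eq_one.mp hc
    have h3 : s = Finsupp.single i 1 := by
      have := congrArg Multiset.toFinsupp h2
      rwa [Finsupp.toMultiset_toFinsupp, Multiset.toFinsupp_singleton] at this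
    refine ⟨none, some i, ?_⟩
    subst h3
    simp [coZ, hX]
  · obtain ⟨i, l, h2⟩ := Multiset.card_eq_two.mp hc
    have h3 : s = Finsupp.single i 1 + Finsupp.single l 1 := by
      have := congrArg Multiset.toFinsupp h2
      rw [Finsupp.toMultiset_toFinsupp] at this
      have h4 : ({i, l} : Multiset (Fin M)) = {i} + {l} := rfl
      rw [this, h4, map_add, Multiset.toFinsupp_singleton, Multiset.toFinsupp_singleton]
    refine ⟨some i, some l, ?_⟩
    subst h3
    simp only [coZ, Option.elim, hX, mul_assoc]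
    rw [MvPolynomial.monomial_mul, mul_one]

lemma exists_form (F : MvPolynomial (Fin M) ℤ) (hF : F.totalDegree ≤ 2) :
    ∃ a : Option (Fin M) → Option (Fin M) → ℤ, F = form a coZ := by
  classical
  have key : ∀ T : Finset (Fin M →₀ ℕ), T ⊆ F.support →
      ∃ a : Option (Fin M) → Option (Fin M) → ℤ,
        ∑ s ∈ T, MvPolynomial.monomial s (MvPolynomial.coeff s F) = form a coZ := by
    intro T
    induction T using Finset.induction_on with
    | empty =>
      intro _
      refine ⟨fun _ _ => 0, ?_⟩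
      unfold form
      simp
    | insert s T hs ih =>
      intro hT
      obtain ⟨a, ha⟩ := ih ((Finset.subset_insert _ _).trans hT)
      have h1 := (MvPolynomial.le_totalDegree (hT (Finset.mem_insert_self s T))).trans hF
      obtain ⟨u, v, huv⟩ := exists_pair s h1 (MvPolynomial.coeff s F)
      refine ⟨fun i l => (if i = u ∧ l = v then MvPolynomial.coeff s F else 0) + a i l, ?_⟩
      rw [Finset.sum_insert hs, form_add, form_single, ha, huv]
  obtain ⟨a, ha⟩ := key F.support (Finset.Subset.refl _)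
  refine ⟨a, ?_⟩
  rw [← ha]
  exact MvPolynomial.as_sum F

/-- integral arrays for quadratic polynomials over `ℚ` -/
lemma exists_arr (q : MvPolynomial (Fin M) ℚ) (hq : q.totalDegree ≤ 2) :
    ∃ (a : Option (Fin M) → Option (Fin M) → ℤ) (N : ℤ), N ≠ 0 ∧
      form a (co ℚ) = MvPolynomial.C (N : ℚ) * q := by
  obtain ⟨F, N, hN, hF⟩ := exists_int q
  have h1 : F.totalDegree ≤ 2 := by
    have h2 : F.support = (MvPolynomial.map (algebraMap ℤ ℚ) F).support :=
      (MvPolynomial.support_map_of_injective F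
        (RingHom.injective_int (algebraMap ℤ ℚ))).symm
    have h3 : F.totalDegree = (MvPolynomial.map (algebraMap ℤ ℚ) F).totalDegree := by
      unfold MvPolynomial.totalDegree
      rw [← h2]
    rw [h3, hF]
    refine (MvPolynomial.totalDegree_mul _ _).trans ?_
    rw [MvPolynomial.totalDegree_C, zero_add]
    exact hq
  obtain ⟨a, ha⟩ := exists_form F h1
  refine ⟨a, N, hN, ?_⟩
  rw [← hF, ha, form_map]
  congr 1
  funext o
  cases o
  · exact (map_one _).symm
  · exact (MvPolynomial.map_X _ _).symm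

end deg

/-- The cubic hypersurface `∑ a_jil λ_j x_i x_l = 1`, with `x_0 = 1`. -/
noncomputable def cubic (M r : ℕ) (a : Arr M r) : SchO ℚ := hypO (quad ℚ a) (1 : ℚ)

variable {𝓜 : Type w} [Category.{v} 𝓜] [Abelian 𝓜] [MonoidalCategory 𝓜]
  {h : ℤ → SchO ℚ → 𝓜} {L L' : 𝓜}

omit [Abelian 𝓜] [MonoidalCategory 𝓜] in
lemma setup_congr {X : SchO ℚ} {s M r : ℕ} {q q' : Fin (r + 1) → MvPolynomial (Fin M) ℚ}
    (S : Setup h X s M r q) (hq : ∀ j, ∃ c : ℚ, c ≠ 0 ∧ q' j = MvPolynomial.C c * q j) :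
    Nonempty (Setup h X s M r q') := by
  refine ⟨⟨S.T, S.p, S.i, S.varT, S.varX, S.bundle,
    ⟨S.dec.closed, inferInstance, Eq.trans ?_ S.dec.range⟩, S.top, S.top'⟩⟩
  change Set.range (Q54.CU.compl q').ι = Set.range (Q54.CU.compl q).ι
  rw [Scheme.Opens.range_ι, Scheme.Opens.range_ι]
  ext x
  change x ∈ Q54.CU.compl q' ↔ x ∈ Q54.CU.compl q
  rw [mem_compl, mem_compl]
  refine exists_congr fun j => not_congr ?_
  obtain ⟨c, hc, hj⟩ := hq j
  rw [hj]
  constructor
  · intro h1
    have h2 : MvPolynomial.C c⁻¹ * (MvPolynomial.C c * q j) ∈ x.asIdeal :=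
      Ideal.mul_mem_left _ _ h1
    rwa [← mul_assoc, ← map_mul, inv_mul_cancel₀ hc, map_one, one_mul] at h2
  · exact fun h1 => Ideal.mul_mem_left _ _ h1

variable [MonoidalPreadditive 𝓜]

/-- **Universality.** -/
theorem exists_cubic (hh : IsMotHomology h L) (hL : L ⊗ L' ≅ 𝟙_ 𝓜) {X : SchO ℚ}
    (hX : IsVar X) (hT : HasAffineTorsor X) : ∃ (M r : ℕ) (a : Arr M r),
      tann (insert L (homs h (cubic M r a))) = tann (insert L (homs h X)) := by
  obtain ⟨s, M, r, q, hq, ⟨S⟩⟩ := exists_setup hh hX hT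
  choose a N hN ha using fun j => exists_arr (q j) (hq j)
  obtain ⟨S'⟩ := setup_congr (q' := quad ℚ a) S fun j =>
    ⟨(N j : ℚ), by exact_mod_cast hN j, ha j⟩
  exact ⟨M, r, a, tann_eq' hh hL S'⟩

/-- **The cubic hypersurface of a disjoint union.** -/
theorem tann_glue (hh : IsMotHomology h L) (hs : IsSumDim h) (hL : L ⊗ L' ≅ 𝟙_ 𝓜)
    {M M₀ M' r r₀ r' : ℕ} (eI : ((Fin M₀ ⊕ Fin M') ⊕ Bool) ≃ Fin M)
    (eJ : ((Bool ⊕ (Fin M₀ ⊕ Fin M')) ⊕ (Fin (r₀ + 1) ⊕ Fin (r' + 1))) ≃ Fin (r + 1))
    (a : Arr M₀ r₀) (a' : Arr M' r') (A : 𝓜)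
    (hA : tann (insert L (homs h (cubic M₀ r₀ a))) A) :
    tann (insert L (homs h (cubic M r (glue eI eJ a a')))) A := by
  unfold cubic at hA ⊢
  rw [tann_cub hh hs hL] at hA ⊢
  refine tann_le (fun C hC hL hT => ?_) A hA
  rintro _ ⟨n, rfl⟩
  exact hC.retract (retract_glue eI eJ a a' hs n) (hT _ ⟨n, rfl⟩)

end Pool.Agent.Helper53.AE
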