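import Pool.Agent.Helper53.AE.Sys

/-!
# Arrays with entries `0`, `1` and `-1`
-/

set_option autoImplicit false

universe v w

namespace Pool.Agent.Helper53.AE

open Q54.CU Q54.TG CategoryTheory Limits MonoidalCategory AlgebraicGeometry
open Pool.Agent.Y116.UV (aff affMap affIso)
open MvPolynomial (aeval X C)

/-- an array for differences -/
def arr3 : Option Bool → Option Bool → ℤ
  | some true, none => 1
  | some false, none => -1
  | _, _ => 0

/-- an array for differences with one -/
def arr4 : Option Unit → Option Unit → ℤ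
  | some _, none => 1
  | none, none => -1
  | _, _ => 0

lemma form_arr3 {R : Type} [CommRing R] (v : Option Bool → R) :
    form arr3 v = (v (some true) - v (some false)) * v none := by
  unfold form
  simp only [Fintype.sum_option, Fintype.sum_bool, arr3]
  push_cast
  ring

lemma form_arr4 {R : Type} [CommRing R] (v : Option Unit → R) :
    form arr4 v = (v (some ()) - v none) * v none := by
  unfold form
  simp only [Fintype.sum_option, Finset.univ_unique, Finset.sum_singleton, arr4]
  push_cast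
  simp only [PUnit.default_eq_unit]
  ring

/-- the entries in unary notation -/
def una {κ : Type} {m : ℕ} (a : κ → κ → ℤ) (p q : κ × Fin (m + 1)) : ℤ :=
  if q.2 = 0 ∧ (p.2 : ℕ) < (a p.1 q.1).natAbs then (a p.1 q.1).sign else 0

lemma una_bound {κ : Type} {m : ℕ} (a : κ → κ → ℤ) (p q : κ × Fin (m + 1)) :
    |una a p q| ≤ 1 := by
  unfold una
  split_ifs
  · rcases Int.sign_trichotomy (a p.1 q.1) with h | h | h <;> rw [h] <;> norm_num
  · norm_num

lemma form_una {κ R : Type} [Fintype κ] [CommRing R] {m : ℕ} (a : κ → κ → ℤ)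
    (ha : ∀ i l, (a i l).natAbs ≤ m) (u : κ → R) :
    form (una (m := m) a) (fun p => u p.1) = form a u := by
  unfold form
  rw [Fintype.sum_prod_type]
  refine Finset.sum_congr rfl fun i _ => ?_
  simp only [Fintype.sum_prod_type]
  rw [Finset.sum_comm]
  refine Finset.sum_congr rfl fun l _ => ?_
  have h1 : ∀ s : Fin (m + 1), ∑ t : Fin (m + 1),
      ((una a (i, s) (l, t) : ℤ) : R) * u i * u l =
        ((if (s : ℕ) < (a i l).natAbs then (a i l).sign else 0 : ℤ) : R) * u i * u l := by
    intro s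
    rw [Finset.sum_eq_single (0 : Fin (m + 1))]
    · unfold una
      simp
    · intro t _ ht
      unfold una
      rw [if_neg fun h => ht h.1]
      simp
    · intro h
      exact absurd (Finset.mem_univ _) h
  simp only [h1]
  rw [← Finset.sum_mul, ← Finset.sum_mul]
  congr 2
  rw [← Int.cast_sum, Fin.sum_univ_eq_sum_range
    (fun s => if s < (a i l).natAbs then (a i l).sign else 0) (m + 1), ← Finset.sum_filter]
  have h2 : (Finset.range (m + 1)).filter (fun s => s < (a i l).natAbs) =
      Finset.range (a i l).natAbs := by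
    ext s
    rw [Finset.mem_filter, Finset.mem_range, Finset.mem_range]
    have := ha i l
    omega
  rw [h2, Finset.sum_const, Finset.card_range, nsmul_eq_mul]
  congr 1
  rw [mul_comm]
  exact Int.sign_mul_natAbs _

section ter

variable {k : Type} [Field k] {M M₀ r r₀ m : ℕ} (eI : (Option (Fin M₀) × Fin (m + 1)) ≃ Fin M)
  (eJ : ((Option (Fin M₀) × Fin (m + 1)) ⊕ Fin (r₀ + 1)) ≃ Fin (r + 1))
  (a : Arr M₀ r₀)

/-- `1` and one copy -/
def t1 (s : Fin (m + 1)) (o : Option Unit) : Option (Fin M) := o.elim none fun _ => some (eI (none, s))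

/-- `1` and two copies -/
def t2 (i : Fin M₀) (s : Fin (m + 1)) (o : Option Bool) : Option (Fin M) :=
  o.elim none fun b => some (if b then eI (some i, s) else eI (some i, 0))

/-- the copies -/
def t3 (p : Option (Fin M₀) × Fin (m + 1)) : Option (Fin M) := some (eI p)

lemma inj_t1 (s : Fin (m + 1)) : Function.Injective (t1 eI s) := by
  rintro (_ | _) (_ | _) h
  · rfl
  · simp [t1] at h
  · simp [t1] at h
  · rfl

lemma inj_t2 (i : Fin M₀) {s : Fin (m + 1)} (hs : s ≠ 0) : Function.Injective (t2 eI i s) := by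
  rintro (_ | _ | _) (_ | _ | _) h
  · rfl
  · simp [t2] at h
  · simp [t2] at h
  · simp [t2] at h
  · rfl
  · simp [t2] at h
    exact absurd h.symm hs
  · simp [t2] at h
  · simp [t2] at h
    exact absurd h hs
  · rfl

lemma inj_t3 : Function.Injective (t3 eI) := fun p q h => eI.injective (Option.some.inj h)

/-- the equations with coefficients `0`, `1` and `-1` -/
def ter (t : Fin (r + 1)) : Option (Fin M) → Option (Fin M) → ℤ :=
  match eJ.symm t with
  | Sum.inl (none, s) => push (t1 eI s) arr4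
  | Sum.inl (some i, s) => if s = 0 then fun _ _ => 0 else push (t2 eI i s) arr3
  | Sum.inr j => push (t3 eI) (una (m := m) (a j))

lemma ter_bound (t : Fin (r + 1)) (u v : Option (Fin M)) : |ter eI eJ a t u v| ≤ 1 := by
  obtain ⟨s, rfl⟩ := eJ.surjective t
  unfold ter
  rw [Equiv.symm_apply_apply]
  rcases s with (⟨_ | i, s⟩ | j)
  · refine push_bound (inj_t1 eI s) zero_le_one ?_ u v
    rintro (_ | _) (_ | _) <;> simp [arr4]
  · dsimp only
    split_ifs with hs
    · norm_num
    · refine push_bound (inj_t2 eI i hs) zero_le_one ?_ u v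
      rintro (_ | _ | _) (_ | _ | _) <;> simp [arr3]
  · exact push_bound (inj_t3 eI) zero_le_one (una_bound (a j)) u v

lemma ter_1 (s : Fin (m + 1)) : quad k (ter eI eJ a) (eJ (Sum.inl (none, s))) =
    X (eI (none, s)) - 1 := by
  unfold quad ter
  rw [Equiv.symm_apply_apply]
  simp only [form_push, form_arr4]
  simp [t1, co]

lemma ter_2 (i : Fin M₀) (s : Fin (m + 1)) : quad k (ter eI eJ a) (eJ (Sum.inl (some i, s))) =
    X (eI (some i, s)) - X (eI (some i, 0)) := by
  unfold quad ter
  rw [Equiv.symm_apply_apply]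
  dsimp only
  split_ifs with hs
  · subst hs
    unfold form
    simp
  · simp only [form_push, form_arr3]
    simp [t2, co]

lemma ter_3 (j : Fin (r₀ + 1)) : quad k (ter eI eJ a) (eJ (Sum.inr j)) =
    form (una (m := m) (a j)) (fun p => X (eI p)) := by
  unfold quad ter
  rw [Equiv.symm_apply_apply]
  simp only [form_push]
  congr 1

variable (ha : ∀ j i l, (a j i l).natAbs ≤ m)

include ha

lemma ter_fwd (p : MvPolynomial (Fin M) k)
    (hp : p ∈ Ideal.span (Set.range (quad k (ter eI eJ a)))) :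
    aeval (fun n => (Ideal.Quotient.mk _ (co k (eI.symm n).1) : Rg k a)) p = 0 := by
  have h1 : Ideal.span (Set.range (quad k (ter eI eJ a))) ≤ RingHom.ker
      (aeval (R := k) (fun n => (Ideal.Quotient.mk _ (co k (eI.symm n).1) : Rg k a))) := by
    rw [Ideal.span_le]
    rintro _ ⟨t, rfl⟩
    rw [SetLike.mem_coe, RingHom.mem_ker]
    obtain ⟨s, rfl⟩ := eJ.surjective t
    rcases s with (⟨_ | i, s⟩ | j)
    · rw [ter_1]
      simp [co]
    · rw [ter_2]
      simp [co]
    · rw [ter_3, form_map]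
      simp only [MvPolynomial.aeval_X, Equiv.symm_apply_apply]
      rw [form_una (a j) (ha j)
        (fun o => (Ideal.Quotient.mk (Ideal.span (Set.range (quad k a))) (co k o)))]
      exact mk_quad' a j
  exact h1 hp

omit ha in
lemma ter_one (s : Fin (m + 1)) :
    (Ideal.Quotient.mk _ (X (eI (none, s))) : Rg k (ter eI eJ a)) = 1 := by
  have h1 := mk_quad (k := k) (ter eI eJ a) (eJ (Sum.inl (none, s)))
  rw [ter_1, map_sub, map_one, sub_eq_zero] at h1
  exact h1

omit ha in
lemma ter_copy (i : Fin M₀) (s : Fin (m + 1)) :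
    (Ideal.Quotient.mk _ (X (eI (some i, s))) : Rg k (ter eI eJ a)) =
      Ideal.Quotient.mk _ (X (eI (some i, 0))) := by
  have h1 := mk_quad (k := k) (ter eI eJ a) (eJ (Sum.inl (some i, s)))
  rw [ter_2, map_sub, sub_eq_zero] at h1
  exact h1

omit ha in
lemma ter_copy' (p : Option (Fin M₀) × Fin (m + 1)) :
    (Ideal.Quotient.mk _ (X (eI p)) : Rg k (ter eI eJ a)) =
      Ideal.Quotient.mk _ (X (eI (p.1, 0))) := by
  rcases p with ⟨_ | i, s⟩
  · rw [ter_one, ter_one]
  · exact ter_copy eI eJ a i s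

lemma ter_bwd (p : MvPolynomial (Fin M₀) k) (hp : p ∈ Ideal.span (Set.range (quad k a))) :
    aeval (fun i => (Ideal.Quotient.mk _ (X (eI (some i, 0))) : Rg k (ter eI eJ a))) p = 0 := by
  have h1 : Ideal.span (Set.range (quad k a)) ≤ RingHom.ker
      (aeval (R := k) (fun i => (Ideal.Quotient.mk _ (X (eI (some i, 0))) :
        Rg k (ter eI eJ a)))) := by
    rw [Ideal.span_le]
    rintro _ ⟨j, rfl⟩
    rw [SetLike.mem_coe, RingHom.mem_ker]
    have h2 := mk_quad (k := k) (ter eI eJ a) (eJ (Sum.inr j))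
    rw [ter_3, form_map] at h2
    have h3 : (fun p => Ideal.Quotient.mk (Ideal.span (Set.range (quad k (ter eI eJ a))))
        (X (eI p) : MvPolynomial (Fin M) k)) = fun p =>
        (fun o => Ideal.Quotient.mk (Ideal.span (Set.range (quad k (ter eI eJ a))))
          (X (eI (o, 0)) : MvPolynomial (Fin M) k)) p.1 := by
      funext p
      exact ter_copy' eI eJ a p
    rw [h3] at h2
    have h4 := form_una (a j) (ha j) (fun o => Ideal.Quotient.mk (Ideal.span (Set.range
      (quad k (ter eI eJ a)))) (X (eI (o, 0)) : MvPolynomial (Fin M) k))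
    rw [quad_eq, form_map]
    refine Eq.trans ?_ (h4.symm.trans h2)
    congr 1
    funext o
    cases o
    · exact (map_one _).trans (ter_one eI eJ a 0).symm
    · exact MvPolynomial.aeval_X _ _
  exact h1 hp

/-- one map -/
noncomputable def tf : Rg k (ter eI eJ a) →ₐ[k] Rg k a :=
  Ideal.Quotient.liftₐ _ (aeval (fun n => (Ideal.Quotient.mk _ (co k (eI.symm n).1) : Rg k a)))
    (ter_fwd eI eJ a ha)

/-- the other map -/
noncomputable def tb : Rg k a →ₐ[k] Rg k (ter eI eJ a) :=
  Ideal.Quotient.liftₐ _ (aeval (fun i => (Ideal.Quotient.mk _ (X (eI (some i, 0))) :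
    Rg k (ter eI eJ a)))) (ter_bwd eI eJ a ha)

lemma tf_X (n : Fin M) : tf (k := k) eI eJ a ha (Ideal.Quotient.mk _ (X n)) =
    Ideal.Quotient.mk _ (co k (eI.symm n).1) := MvPolynomial.aeval_X _ _

lemma tb_X (i : Fin M₀) : tb (k := k) eI eJ a ha (Ideal.Quotient.mk _ (X i)) =
    Ideal.Quotient.mk _ (X (eI (some i, 0))) := MvPolynomial.aeval_X _ _

lemma tf_tb : (tf (k := k) eI eJ a ha).comp (tb (k := k) eI eJ a ha) = AlgHom.id k _ := by
  apply Ideal.Quotient.algHom_ext
  apply MvPolynomial.algHom_ext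
  intro i
  change tf (k := k) eI eJ a ha (tb (k := k) eI eJ a ha (Ideal.Quotient.mk _ (X i))) =
    Ideal.Quotient.mk _ (X i)
  rw [tb_X, tf_X, Equiv.symm_apply_apply]
  rfl

lemma tb_tf : (tb (k := k) eI eJ a ha).comp (tf (k := k) eI eJ a ha) = AlgHom.id k _ := by
  apply Ideal.Quotient.algHom_ext
  apply MvPolynomial.algHom_ext
  intro n
  obtain ⟨p, rfl⟩ := eI.surjective n
  change tb (k := k) eI eJ a ha (tf (k := k) eI eJ a ha (Ideal.Quotient.mk _ (X (eI p)))) =
    Ideal.Quotient.mk _ (X (eI p))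
  rw [tf_X, Equiv.symm_apply_apply, ter_copy' eI eJ a p]
  rcases p with ⟨_ | i, s⟩
  · change tb (k := k) eI eJ a ha (Ideal.Quotient.mk _ 1) = _
    rw [map_one, map_one]
    exact (ter_one eI eJ a 0).symm
  · exact tb_X eI eJ a ha i

/-- the two systems have isomorphic zero schemes -/
noncomputable def terEquiv : Rg k (ter eI eJ a) ≃ₐ[k] Rg k a :=
  AlgEquiv.ofAlgHom (tf (k := k) eI eJ a ha) (tb (k := k) eI eJ a ha) (tf_tb eI eJ a ha)
    (tb_tf eI eJ a ha)

end ter

variable {𝓜 : Type w} [Category.{v} 𝓜] [Abelian 𝓜] [MonoidalCategory 𝓜]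
  [MonoidalPreadditive 𝓜] {h : ℤ → SchO ℚ → 𝓜} {L L' : 𝓜}

/-- **Entries `0`, `1` and `-1` suffice.** -/
theorem exists_ter (hh : IsMotHomology h L) (hs : IsSumDim h) (hL : L ⊗ L' ≅ 𝟙_ 𝓜) {M₀ r₀ : ℕ}
    (a : Arr M₀ r₀) : ∃ (M r : ℕ) (b : Arr M r), (∀ j u v, |b j u v| ≤ 1) ∧
      tann (insert L (homs h (cubic M r b))) = tann (insert L (homs h (cubic M₀ r₀ a))) := by
  set m := ∑ j, ∑ u, ∑ v, (a j u v).natAbs with hm
  have ha : ∀ j u v, (a j u v).natAbs ≤ m := by
    intro j u v
    refine le_trans ?_ (Finset.single_le_sum (f := fun j => ∑ u, ∑ v, (a j u v).natAbs)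
      (fun _ _ => Nat.zero_le _) (Finset.mem_univ j))
    refine le_trans ?_ (Finset.single_le_sum (f := fun u => ∑ v, (a j u v).natAbs)
      (fun _ _ => Nat.zero_le _) (Finset.mem_univ u))
    exact Finset.single_le_sum (f := fun v => (a j u v).natAbs)
      (fun _ _ => Nat.zero_le _) (Finset.mem_univ v)
  let eI : (Option (Fin M₀) × Fin (m + 1)) ≃ Fin ((M₀ + 1) * (m + 1)) :=
    Fintype.equivOfCardEq (by
      simp only [Fintype.card_prod, Fintype.card_option, Fintype.card_fin])
  let eJ : ((Option (Fin M₀) × Fin (m + 1)) ⊕ Fin (r₀ + 1)) ≃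
      Fin ((M₀ + 1) * (m + 1) + r₀ + 1) :=
    Fintype.equivOfCardEq (by
      simp only [Fintype.card_sum, Fintype.card_prod, Fintype.card_option, Fintype.card_fin]
      ring)
  refine ⟨_, _, ter eI eJ a, ter_bound eI eJ a, ?_⟩
  unfold cubic
  rw [tann_cub hh hs hL, tann_cub hh hs hL]
  exact tann_iso hh (isVar_zer _) (isVar_zer _) (affIso (terEquiv (k := ℚ) eI eJ a ha)).symm

end Pool.Agent.Helper53.AE
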